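import Pool.Agent.Lib.MP_17a322_nt.EF.Defs3

/-!
Vojta's conjecture for the projective varieties birational to an abelian variety: definitions of the
final statement.
-/

universe u

namespace Pool.Agent.Lib.MP_17a322_nt.BA

open MvPolynomial Height

/-- The tangent space at the vector `p` of the affine cone over the closed subset of projective space
with the ideal `J`. -/
def Tan {K : Type u} [Field K] {n : ℕ} (J : Ideal (MvPolynomial (Fin n) K)) (p : Fin n → K) :
    Submodule K (Fin n → K) where
  carrier := {y | ∀ F ∈ J, ∑ i, eval p (pderiv i F) * y i = 0}
  add_mem' := by
    intro y z hy hz F hF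
    simp only [Pi.add_apply, mul_add, Finset.sum_add_distrib]
    rw [hy F hF, hz F hF, add_zero]
  zero_mem' := by
    intro F _
    simp only [Pi.zero_apply, mul_zero, Finset.sum_const_zero]
  smul_mem' := by
    intro c y hy F hF
    have h1 : ∑ i, eval p (pderiv i F) * (c • y) i = c * ∑ i, eval p (pderiv i F) * y i := by
      rw [Finset.mul_sum]
      refine Finset.sum_congr rfl fun i _ => ?_
      rw [Pi.smul_apply, smul_eq_mul]
      ring
    rw [h1, hy F hF, mul_zero]

/-- The height with respect to the canonical class of the point with the coordinates `p` of a smooth
projective variety with the ideal `J`: the height of the tangent space of the cone minus its dimension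
times the height of the point. -/
noncomputable def hCan {K : Type u} [Field K] [NumberField K] {n : ℕ}
    (J : Ideal (MvPolynomial (Fin n) K)) (p : Fin n → K) : ℝ :=
  EF.hSub (Tan J p) - Module.finrank K (Tan J p) * logHeight p

end Pool.Agent.Lib.MP_17a322_nt.BA
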