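import Pool.Agent.Lib.MP_17a322_nt.BA.T2

/-!
Vojta's conjecture for the projective varieties birational to an abelian variety: the minors of the
differential of the composition of a translation and a rational map are forms in the coordinates of the
translation.
-/

universe u

namespace Pool.Agent.Lib.MP_17a322_nt.BA

open MvPolynomial Height
open Pool.Agent.Lib.MP_17a322_nt.VA

section

variable {K : Type u} [Field K]

theorem H1_weight {σ : Type*} [Fintype σ] (w : σ → ℕ) (m : σ →₀ ℕ) :
    Finsupp.weight w m = ∑ i, m i * w i := by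
  rw [Finsupp.weight_apply, Finsupp.sum_fintype _ _ (fun i => by rw [zero_smul])]
  exact Finset.sum_congr rfl fun i _ => by rw [smul_eq_mul]

/-- Substitution of weighted homogeneous polynomials. -/
theorem H1_aeval {σ τ : Type*} [Fintype σ] {w : σ → ℕ} {w' : τ → ℕ} {f : σ → MvPolynomial τ K}
    (hf : ∀ i, IsWeightedHomogeneous w' (f i) (w i)) {G : MvPolynomial σ K} {n : ℕ}
    (hG : IsWeightedHomogeneous w G n) : IsWeightedHomogeneous w' (aeval f G) n := by
  rw [aeval_def, eval₂_eq']
  refine IsWeightedHomogeneous.sum _ _ _ fun m hm => ?_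
  have h1 : IsWeightedHomogeneous w' (∏ i, f i ^ m i) (∑ i, m i • w i) :=
    IsWeightedHomogeneous.prod _ _ _ fun i _ => (hf i).pow (m i)
  have h2 : ∑ i, m i • w i = n := by
    rw [← hG (mem_support_iff.mp hm), H1_weight]
    exact Finset.sum_congr rfl fun i _ => by rw [smul_eq_mul]
  rw [h2] at h1
  have h3 := (isWeightedHomogeneous_C w' (coeff m G)).mul h1
  rw [zero_add] at h3
  exact h3

theorem H1_det {n k D : ℕ} (U : Matrix (Fin k) (Fin k) (MvPolynomial (Fin n) K))
    (hU : ∀ s t, (U s t).IsHomogeneous D) : U.det.IsHomogeneous (D * k) := by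
  rw [Matrix.det_apply']
  refine IsHomogeneous.sum _ _ _ fun σ _ => ?_
  have h1 : (∏ i, U (σ i) i).IsHomogeneous (∑ _i : Fin k, D) :=
    IsHomogeneous.prod _ _ _ fun i _ => hU _ _
  have h2 : (((Equiv.Perm.sign σ : ℤ) : MvPolynomial (Fin n) K)).IsHomogeneous 0 := by
    rw [← map_intCast (C : K →+* MvPolynomial (Fin n) K)]
    exact isHomogeneous_C _ _
  have h3 := h2.mul h1
  rw [zero_add, Finset.sum_const, Finset.card_univ, Fintype.card_fin, smul_eq_mul, mul_comm k D] at h3
  exact h3

/-- The derivatives with respect to the first set of variables. -/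
theorem H1_pderiv {N : ℕ} (q : Fin (N + 1) → K) (G : MvPolynomial (Fin (N + 1) ⊕ Fin (N + 1)) K)
    (i : Fin (N + 1)) :
    pderiv i (aeval (Sum.elim X fun i => C (q i)) G : MvPolynomial (Fin (N + 1)) K) =
      (aeval (Sum.elim X fun i => C (q i)) (pderiv (Sum.inl i) G) :
        MvPolynomial (Fin (N + 1)) K) := by
  induction G using MvPolynomial.induction_on with
  | C a => rw [aeval_C, MvPolynomial.algebraMap_eq, pderiv_C, pderiv_C, map_zero]
  | add p q hp hq => rw [map_add, map_add, hp, hq, map_add, map_add]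
  | mul_X p k hp =>
    have h1 : pderiv i (aeval (Sum.elim X fun i => C (q i))
        (X k : MvPolynomial (Fin (N + 1) ⊕ Fin (N + 1)) K) : MvPolynomial (Fin (N + 1)) K) =
        aeval (Sum.elim X fun i => C (q i))
          (pderiv (Sum.inl i) (X k : MvPolynomial (Fin (N + 1) ⊕ Fin (N + 1)) K)) := by
      rw [aeval_X]
      rcases k with k | k
      · rw [Sum.elim_inl]
        by_cases h : i = k
        · rw [h, pderiv_X_self, pderiv_X_self, map_one]
        · rw [pderiv_X_of_ne (Ne.symm h), pderiv_X_of_ne fun h' => h (Sum.inl_injective h').symm,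
            map_zero]
      · rw [Sum.elim_inr, pderiv_C, pderiv_X_of_ne Sum.inr_ne_inl, map_zero]
    rw [map_mul, Derivation.leibniz, Derivation.leibniz, hp, h1, smul_eq_mul, smul_eq_mul,
      smul_eq_mul, smul_eq_mul, map_add, map_mul, map_mul]

theorem H1_eval {N : ℕ} (x₀ q : Fin (N + 1) → K)
    (G : MvPolynomial (Fin (N + 1) ⊕ Fin (N + 1)) K) :
    eval x₀ (aeval (Sum.elim X fun i => C (q i)) G : MvPolynomial (Fin (N + 1)) K) =
      eval q (aeval (Sum.elim (fun i => C (x₀ i)) X) G : MvPolynomial (Fin (N + 1)) K) := by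
  induction G using MvPolynomial.induction_on with
  | C a => rw [aeval_C, aeval_C, MvPolynomial.algebraMap_eq, eval_C, eval_C]
  | add p q hp hq => rw [map_add, map_add, hp, hq, map_add, map_add]
  | mul_X p k hp =>
    rw [map_mul, map_mul, hp, map_mul, map_mul, aeval_X, aeval_X]
    rcases k with k | k
    · rw [Sum.elim_inl, Sum.elim_inl, eval_X, eval_C]
    · rw [Sum.elim_inr, Sum.elim_inr, eval_X, eval_C]

end

section

variable {K : Type u} [Field K] {N M κ d : ℕ} (A : AV K N)

/-- The forms `S a b` have degree two in the second set of variables. -/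
theorem H1_S (a b : Fin (N + 1)) :
    IsWeightedHomogeneous (Sum.elim (fun _ => 0) fun _ => 1) (A.S a b) 2 := by
  intro m hm
  rw [H1_weight, Fintype.sum_sum_type]
  simp only [Sum.elim_inl, Sum.elim_inr, mul_zero, mul_one, Finset.sum_const_zero, zero_add]
  exact (A.bihomog a b m (mem_support_iff.mpr hm)).2

theorem H_form (φ : Fin κ → Fin (M + 1) → MvPolynomial (Fin (N + 1)) K)
    (hφ : ∀ k j, (φ k j).IsHomogeneous d) (x₀ : Fin (N + 1) → K) {r : ℕ}
    (y : Fin (r + 1) → Fin (N + 1) → K) :
    ∃ W : (Fin κ × Fin (N + 1)) × (Fin (r + 1) ↪o Fin (M + 1)) → MvPolynomial (Fin (N + 1)) K,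
      (∀ z, (W z).IsHomogeneous (2 * d * (r + 1))) ∧
      ∀ (q : Fin (N + 1) → K) k b e, eval q (W ((k, b), e)) =
        (Matrix.of fun s t => dm (fun j => aeval (tr A b q) (φ k j)) x₀ (y s) (e t)).det := by
  have hΦ : ∀ k b j, IsWeightedHomogeneous (Sum.elim (fun _ => 0) fun _ => 1)
      (aeval (fun a => A.S a b) (φ k j)) (2 * d) := by
    intro k b j
    refine H1_aeval (w := fun _ => 2) (fun a => H1_S A a b) ?_
    intro m hm
    have h1 := hφ k j hm
    rw [H1_weight] at h1 ⊢
    rw [← h1, Finset.mul_sum]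
    refine Finset.sum_congr rfl fun i _ => ?_
    rw [Pi.one_apply, mul_one, mul_comm]
  have hU : ∀ k b j i, ((aeval (Sum.elim (fun i => C (x₀ i)) X)
      (pderiv (Sum.inl i) (aeval (fun a => A.S a b) (φ k j))) :
        MvPolynomial (Fin (N + 1)) K)).IsHomogeneous (2 * d) := by
    intro k b j i
    refine H1_aeval (w := Sum.elim (fun _ => 0) fun _ => 1) ?_
      ((hΦ k b j).pderiv (i := Sum.inl i) (by rw [Sum.elim_inl, add_zero]))
    rintro (i | i)
    · exact isWeightedHomogeneous_C _ _
    · exact isWeightedHomogeneous_X _ _ _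
  let U : Fin κ → Fin (N + 1) → Fin (r + 1) → Fin (M + 1) → MvPolynomial (Fin (N + 1)) K :=
    fun k b s j => ∑ i, C (y s i) * aeval (Sum.elim (fun i => C (x₀ i)) X)
      (pderiv (Sum.inl i) (aeval (fun a => A.S a b) (φ k j)))
  have hU' : ∀ k b s j, (U k b s j).IsHomogeneous (2 * d) := by
    intro k b s j
    refine IsHomogeneous.sum _ _ _ fun i _ => ?_
    have h1 := (isHomogeneous_C (Fin (N + 1)) (y s i)).mul (hU k b j i)
    rwa [zero_add] at h1
  refine ⟨fun z => (Matrix.of fun s t => U z.1.1 z.1.2 s (z.2 t)).det,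
    fun z => H1_det _ fun s t => hU' _ _ _ _, fun q k b e => ?_⟩
  rw [RingHom.map_det]
  congr 1
  ext s t
  rw [RingHom.mapMatrix_apply, Matrix.map_apply, Matrix.of_apply, Matrix.of_apply]
  have h2 : eval q (U k b s (e t)) = ∑ i, y s i * eval q (aeval (Sum.elim (fun i => C (x₀ i)) X)
      (pderiv (Sum.inl i) (aeval (fun a => A.S a b) (φ k (e t)))) :
        MvPolynomial (Fin (N + 1)) K) := by
    rw [map_sum]
    refine Finset.sum_congr rfl fun i _ => ?_
    rw [map_mul, eval_C]
  have h3 : aeval (tr A b q) (φ k (e t)) =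
      aeval (Sum.elim X fun i => C (q i)) (aeval (fun a => A.S a b) (φ k (e t))) := by
    rw [MvPolynomial.comp_aeval_apply]
    rfl
  rw [h2, dm_apply]
  refine Finset.sum_congr rfl fun i _ => ?_
  rw [h3, H1_pderiv, H1_eval, mul_comm]

end

end Pool.Agent.Lib.MP_17a322_nt.BA
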