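import Pool.Agent.Lib.MP_17a322_nt.VA.A6

/-!
Vojta's conjecture for the projective varieties birational to an abelian variety: heights of the values
of forms.
-/

universe u

namespace Pool.Agent.Lib.MP_17a322_nt.BA

open MvPolynomial Height
open Pool.Agent.Lib.MP_17a322_nt.VA

section

variable {K : Type u} [Field K] [NumberField K]

/-- Forms of degree `D`. -/
theorem H_bound {n D : ℕ} {ι : Type} [Finite ι] (W : ι → MvPolynomial (Fin n) K)
    (hW : ∀ z, (W z).IsHomogeneous D) :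
    ∃ C : ℝ, ∀ q : Fin n → K, q ≠ 0 → (∃ z, eval q (W z) ≠ 0) →
      logHeight (fun z => eval q (W z)) ≤ D * logHeight q + C := by
  obtain ⟨C, hC⟩ := logHeight_eval_le' hW
  exact ⟨C, fun q _ _ => (hC q).trans (le_of_eq (add_comm _ _))⟩

/-- One place: forms of degree `D`. -/
theorem H_local {n D : ℕ} {ι : Type} [Finite ι] (W : ι → MvPolynomial (Fin n) K)
    (hW : ∀ z, (W z).IsHomogeneous D) (v : AbsoluteValue K ℝ) :
    ∃ C : ℝ, ∀ q : Fin n → K, q ≠ 0 → (∃ z, eval q (W z) ≠ 0) →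
      Real.log (⨆ z, v (eval q (W z))) ≤ D * Real.log (⨆ i, v (q i)) + C := by
  classical
  let _ := Fintype.ofFinite ι
  obtain ⟨c, hc⟩ : ∃ c : ι → ℝ, ∀ z, 0 ≤ c z ∧
      ∀ q, v (eval q (W z)) ≤ c z * (⨆ i, v (q i)) ^ D := by
    have h1 := fun z => AbsoluteValue.eval_mvPolynomial_le v (hW z)
    refine ⟨_, fun z => ⟨?_, h1 z⟩⟩
    exact Finset.sum_nonneg fun i _ => v.nonneg _
  obtain ⟨c', hc'⟩ : ∃ c', c' = 1 + ∑ z, c z := ⟨_, rfl⟩
  have hs : 0 ≤ ∑ z, c z := Finset.sum_nonneg fun z _ => (hc z).1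
  have hc'0 : 0 < c' := by rw [hc']; linarith
  refine ⟨Real.log c', fun q hq hz => ?_⟩
  obtain ⟨z₁, hz₁⟩ := hz
  have hne : Nonempty ι := ⟨z₁⟩
  have hq0 : 0 < ⨆ i, v (q i) := by
    obtain ⟨a, ha⟩ := Function.ne_iff.1 hq
    exact lt_of_lt_of_le (v.pos ha) (le_ciSup (f := fun i => v (q i))
      (Set.finite_range _).bddAbove a)
  have h1 : (⨆ z, v (eval q (W z))) ≤ c' * (⨆ i, v (q i)) ^ D := by
    refine ciSup_le fun z => ((hc z).2 q).trans (mul_le_mul_of_nonneg_right ?_ (by positivity))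
    rw [hc']
    have h2 := Finset.single_le_sum (f := c) (fun z _ => (hc z).1) (Finset.mem_univ z)
    linarith
  have h2 : 0 < ⨆ z, v (eval q (W z)) :=
    lt_of_lt_of_le (v.pos hz₁) (le_ciSup (f := fun z => v (eval q (W z)))
      (Set.finite_range _).bddAbove z₁)
  have h3 := Real.log_le_log h2 h1
  rw [Real.log_mul hc'0.ne' (by positivity), Real.log_pow] at h3
  linarith

/-- The height of `- Q`. -/
theorem H_neg {N : ℕ} (A : AV K N) :
    ∃ C : ℝ, ∀ Q : A.Pts K, |logHeight (A.x (-Q)) - logHeight (A.x Q)| ≤ C := by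
  obtain ⟨C, hC, h⟩ := A.parallelogram
  refine ⟨C * Module.finrank ℚ K + 2 * logHeight (A.x (0 : A.Pts K)), fun Q => ?_⟩
  have h1 := h K (0 : A.Pts K) Q
  rw [zero_add, zero_sub] at h1
  have h2 : 0 ≤ A.h (0 : A.Pts K) := logHeight_nonneg _
  have e1 : A.h (-Q) = logHeight (A.x (-Q)) := rfl
  have e2 : A.h Q = logHeight (A.x Q) := rfl
  have e3 : A.h (0 : A.Pts K) = logHeight (A.x (0 : A.Pts K)) := rfl
  rw [e1, e2, e3] at h1
  rw [e3] at h2
  rw [abs_le] at h1 ⊢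
  constructor <;> linarith [h1.1, h1.2]

end

end Pool.Agent.Lib.MP_17a322_nt.BA
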