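import Pool.Agent.Lib.MP_17a322_nt.BA.Defs

/-!
Vojta's conjecture for the projective varieties birational to an abelian variety: the differential of a
map given by forms, the chain rule and the tangent spaces of affine cones.
-/

universe u

namespace Pool.Agent.Lib.MP_17a322_nt.BA

open MvPolynomial Height

section

variable {K : Type u} [Field K] {n n' : ℕ}

/-- The differential at `x` of the map with the components `α j`. -/
noncomputable def dm (α : Fin n' → MvPolynomial (Fin n) K) (x : Fin n → K) :
    (Fin n → K) →ₗ[K] (Fin n' → K) where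
  toFun y j := ∑ i, eval x (pderiv i (α j)) * y i
  map_add' y z := by
    funext j
    simp only [Pi.add_apply, mul_add, Finset.sum_add_distrib]
  map_smul' c y := by
    funext j
    simp only [Pi.smul_apply, smul_eq_mul, RingHom.id_apply, Finset.mul_sum]
    exact Finset.sum_congr rfl fun i _ => by ring

theorem dm_apply (α : Fin n' → MvPolynomial (Fin n) K) (x y : Fin n → K) (j : Fin n') :
    dm α x y j = ∑ i, eval x (pderiv i (α j)) * y i := rfl

theorem chain (α : Fin n' → MvPolynomial (Fin n) K) (F : MvPolynomial (Fin n') K)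
    (x y : Fin n → K) :
    ∑ i, eval x (pderiv i (aeval α F)) * y i =
      ∑ j, eval (fun j => eval x (α j)) (pderiv j F) * dm α x y j := by
  have hev : ∀ G : MvPolynomial (Fin n') K,
      eval x (aeval α G) = eval (fun j => eval x (α j)) G := by
    intro G
    induction G using MvPolynomial.induction_on with
    | C a => simp
    | add p q hp hq => rw [map_add, map_add, hp, hq, map_add]
    | mul_X p i hp => rw [map_mul, map_mul, hp, map_mul, aeval_X, eval_X]
  induction F using MvPolynomial.induction_on with
  | C a =>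
    have h1 : ∀ i, pderiv i (aeval α (C a : MvPolynomial (Fin n') K)) = 0 := by
      intro i
      rw [aeval_C, MvPolynomial.algebraMap_eq, pderiv_C]
    have h2 : ∀ j, pderiv j (C a : MvPolynomial (Fin n') K) = 0 := fun j => pderiv_C
    simp only [h1, h2, map_zero, zero_mul, Finset.sum_const_zero]
  | add p q hp hq =>
    simp only [map_add, add_mul, Finset.sum_add_distrib]
    rw [hp, hq]
  | mul_X p k hp =>
    have h1 : ∀ i, pderiv i (aeval α (p * X k)) =
        aeval α p * pderiv i (α k) + α k * pderiv i (aeval α p) := by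
      intro i
      rw [map_mul, aeval_X, Derivation.leibniz, smul_eq_mul, smul_eq_mul]
    have h2 : ∀ j, pderiv j (p * X k) = p * pderiv j (X k) + X k * pderiv j p := by
      intro j
      rw [Derivation.leibniz, smul_eq_mul, smul_eq_mul]
    have h3 : ∑ i, eval x (pderiv i (aeval α (p * X k))) * y i =
        eval x (aeval α p) * dm α x y k +
          eval x (α k) * ∑ i, eval x (pderiv i (aeval α p)) * y i := by
      rw [dm_apply, Finset.mul_sum, Finset.mul_sum, ← Finset.sum_add_distrib]
      refine Finset.sum_congr rfl fun i _ => ?_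
      rw [h1 i, map_add, map_mul, map_mul]
      ring
    have h4 : ∑ j, eval (fun j => eval x (α j)) (pderiv j (p * X k)) * dm α x y j =
        eval (fun j => eval x (α j)) p * dm α x y k +
          eval x (α k) * ∑ j, eval (fun j => eval x (α j)) (pderiv j p) * dm α x y j := by
      have h5 : ∑ j, eval (fun j => eval x (α j)) (p * pderiv j (X k)) * dm α x y j =
          eval (fun j => eval x (α j)) p * dm α x y k := by
        rw [Finset.sum_eq_single k]
        · rw [pderiv_X_self, mul_one]
        · intro j _ hj
          rw [pderiv_X_of_ne (Ne.symm hj), mul_zero, map_zero, zero_mul]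
        · intro h
          exact absurd (Finset.mem_univ k) h
      rw [← h5, Finset.mul_sum, ← Finset.sum_add_distrib]
      refine Finset.sum_congr rfl fun j _ => ?_
      rw [h2 j, map_add, map_mul (eval fun j => eval x (α j)) (X k), eval_X]
      ring
    rw [h3, h4, hp, hev]

/-- The composition of two maps. -/
theorem dm_comp {n'' : ℕ} (α : Fin n' → MvPolynomial (Fin n) K)
    (β : Fin n'' → MvPolynomial (Fin n') K) (x y : Fin n → K) :
    dm (fun k => aeval α (β k)) x y = dm β (fun j => eval x (α j)) (dm α x y) := by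
  funext k
  rw [dm_apply, dm_apply]
  exact chain α (β k) x y

/-- The value of a form at a multiple of a vector. -/
theorem T_eval_scale {G : MvPolynomial (Fin n) K} {k : ℕ} (hG : G.IsHomogeneous k) (c : K)
    (p : Fin n → K) : eval (fun i => c * p i) G = c ^ k * eval p G := by
  rw [eval_eq', eval_eq', Finset.mul_sum]
  refine Finset.sum_congr rfl fun d hd => ?_
  have h1 : ∑ i, d i = k := by
    have h2 := hG (mem_support_iff.mp hd)
    rwa [Finsupp.weight_apply, Finsupp.sum_fintype _ _ (fun i => by rw [zero_smul]),
      Finset.sum_congr rfl fun i _ => (by rw [Pi.one_apply, smul_eq_mul, mul_one])] at h2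
  rw [Finset.prod_congr rfl fun i _ => mul_pow c (p i) (d i), Finset.prod_mul_distrib,
    Finset.prod_pow_eq_pow_sum, h1]
  ring

/-- It suffices to know the homogeneous components of a polynomial. -/
theorem T_sum_comp (F : MvPolynomial (Fin n) K) (q y : Fin n → K)
    (h : ∀ k, ∑ i, eval q (pderiv i (homogeneousComponent k F)) * y i = 0) :
    ∑ i, eval q (pderiv i F) * y i = 0 := by
  have h1 : ∀ i, pderiv i F =
      ∑ k ∈ Finset.range (F.totalDegree + 1), pderiv i (homogeneousComponent k F) := by
    intro i
    rw [← map_sum, sum_homogeneousComponent]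
  calc ∑ i, eval q (pderiv i F) * y i
      = ∑ i, ∑ k ∈ Finset.range (F.totalDegree + 1),
          eval q (pderiv i (homogeneousComponent k F)) * y i := by
        refine Finset.sum_congr rfl fun i _ => ?_
        rw [h1 i, map_sum, Finset.sum_mul]
    _ = ∑ k ∈ Finset.range (F.totalDegree + 1), ∑ i,
          eval q (pderiv i (homogeneousComponent k F)) * y i := Finset.sum_comm
    _ = 0 := Finset.sum_eq_zero fun k _ => h k

theorem Tan_le_scale {J : Ideal (MvPolynomial (Fin n) K)}
    (hJ : ∀ F ∈ J, ∀ i, homogeneousComponent i F ∈ J) (c : K) (p : Fin n → K) :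
    Tan J p ≤ Tan J (fun i => c * p i) := by
  intro y hy F hF
  refine T_sum_comp F _ y fun k => ?_
  have h1 : ∀ i, eval (fun i => c * p i) (pderiv i (homogeneousComponent k F)) * y i =
      c ^ (k - 1) * (eval p (pderiv i (homogeneousComponent k F)) * y i) := by
    intro i
    rw [T_eval_scale (homogeneousComponent_isHomogeneous k F).pderiv c p, mul_assoc]
  rw [Finset.sum_congr rfl fun i _ => h1 i, ← Finset.mul_sum, hy _ (hJ F hF k), mul_zero]

theorem Tan_scale {J : Ideal (MvPolynomial (Fin n) K)}
    (hJ : ∀ F ∈ J, ∀ i, homogeneousComponent i F ∈ J) {c : K} (hc : c ≠ 0) (p : Fin n → K) :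
    Tan J (fun i => c * p i) = Tan J p := by
  refine le_antisymm ?_ (Tan_le_scale hJ c p)
  have h1 := Tan_le_scale hJ c⁻¹ (fun i => c * p i)
  have h2 : (fun i => c⁻¹ * (fun i => c * p i) i) = p := by
    funext i
    exact inv_mul_cancel_left₀ hc (p i)
  rwa [h2] at h1

/-- Euler's identity. -/
theorem T_euler {G : MvPolynomial (Fin n) K} {k : ℕ} (hG : G.IsHomogeneous k) (p : Fin n → K) :
    ∑ i, eval p (pderiv i G) * p i = k * eval p G := by
  have h := congrArg (eval p) hG.sum_X_mul_pderiv
  rw [map_sum, nsmul_eq_mul, map_mul, map_natCast] at h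
  rw [← h]
  refine Finset.sum_congr rfl fun i _ => ?_
  rw [map_mul, eval_X, mul_comm]

theorem Tan_self {J : Ideal (MvPolynomial (Fin n) K)}
    (hJ : ∀ F ∈ J, ∀ i, homogeneousComponent i F ∈ J) {p : Fin n → K}
    (hp : ∀ F ∈ J, eval p F = 0) : p ∈ Tan J p := by
  intro F hF
  refine T_sum_comp F _ p fun k => ?_
  rw [T_euler (homogeneousComponent_isHomogeneous k F), hp _ (hJ F hF k), mul_zero]

theorem dm_mem {I : Ideal (MvPolynomial (Fin n) K)} {J : Ideal (MvPolynomial (Fin n') K)}
    {α : Fin n' → MvPolynomial (Fin n) K} (h : ∀ F ∈ J, aeval α F ∈ I) {x y : Fin n → K}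
    (hy : y ∈ Tan I x) : dm α x y ∈ Tan J (fun j => eval x (α j)) := by
  intro F hF
  rw [← chain]
  exact hy _ (h F hF)

theorem dm_self {δ : ℕ} {α : Fin n' → MvPolynomial (Fin n) K} (hα : ∀ j, (α j).IsHomogeneous δ)
    (x : Fin n → K) (j : Fin n') : dm α x x j = δ * eval x (α j) := by
  rw [dm_apply]
  exact T_euler (hα j) x

end

end Pool.Agent.Lib.MP_17a322_nt.BA
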