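import Pool.Agent.Lib.MP_17a322_nt.BA.T1a

/-!
Vojta's conjecture for the projective varieties birational to an abelian variety: the differentials of
representatives of the same map.
-/

universe u

namespace Pool.Agent.Lib.MP_17a322_nt.BA

open MvPolynomial

variable {K : Type u} [Field K] {n n' : ℕ}

theorem cross_deriv {I : Ideal (MvPolynomial (Fin n) K)} {α β : Fin n' → MvPolynomial (Fin n) K}
    (h : ∀ i j, α i * β j - α j * β i ∈ I) {x y : Fin n → K} (hy : y ∈ Tan I x) {p : Fin n' → K}
    (hp : p ≠ 0) {a b : K} (ha : ∀ j, eval x (α j) = a * p j) (hb : ∀ j, eval x (β j) = b * p j) :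
    ∃ c : K, ∀ j, b * dm α x y j - a * dm β x y j = c * p j := by
  obtain ⟨j₀, hj₀⟩ := Function.ne_iff.1 hp
  rw [Pi.zero_apply] at hj₀
  have key : ∀ i j, (b * dm α x y i - a * dm β x y i) * p j =
      (b * dm α x y j - a * dm β x y j) * p i := by
    intro i j
    have h1 := hy _ (h i j)
    have h2 : ∀ k, eval x (pderiv k (α i * β j - α j * β i)) * y k =
        a * p i * (eval x (pderiv k (β j)) * y k) + b * p j * (eval x (pderiv k (α i)) * y k) -
          (a * p j * (eval x (pderiv k (β i)) * y k) +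
            b * p i * (eval x (pderiv k (α j)) * y k)) := by
      intro k
      rw [map_sub, Derivation.leibniz, Derivation.leibniz]
      simp only [smul_eq_mul, map_sub, map_add, map_mul, ha, hb]
      ring
    simp only [h2] at h1
    rw [Finset.sum_sub_distrib, Finset.sum_add_distrib, Finset.sum_add_distrib, ← Finset.mul_sum,
      ← Finset.mul_sum, ← Finset.mul_sum, ← Finset.mul_sum] at h1
    rw [dm_apply, dm_apply, dm_apply, dm_apply]
    linear_combination h1
  refine ⟨(b * dm α x y j₀ - a * dm β x y j₀) / p j₀, fun j => ?_⟩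
  rw [div_mul_eq_mul_div, eq_div_iff hj₀]
  exact key j j₀

/-- The value of a composition. -/
theorem T1b_eval (α : Fin n' → MvPolynomial (Fin n) K) (F : MvPolynomial (Fin n') K)
    (x : Fin n → K) : eval x (aeval α F) = eval (fun j => eval x (α j)) F := by
  induction F using MvPolynomial.induction_on with
  | C a => rw [← algebraMap_eq, AlgHom.commutes, algebraMap_eq, algebraMap_eq, eval_C, eval_C]
  | add p q hp hq => rw [map_add, map_add, map_add, hp, hq]
  | mul_X p i hp => rw [map_mul, map_mul, map_mul, hp, aeval_X, eval_X]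

/-- The differential is injective if the map has an inverse. -/
theorem dm_inj [CharZero K] {I : Ideal (MvPolynomial (Fin n) K)} {δ : ℕ} (hδ : 0 < δ)
    {α : Fin n' → MvPolynomial (Fin n) K} (hα : ∀ j, (α j).IsHomogeneous δ)
    {β : Fin n → MvPolynomial (Fin n') K}
    (h : ∀ i j, aeval α (β i) * X j - aeval α (β j) * X i ∈ I) {x : Fin n → K} (hx0 : x ≠ 0)
    {c : K} (hc : c ≠ 0) (hx : ∀ i, eval (fun j => eval x (α j)) (β i) = c * x i)
    (hαx : ∃ j, eval x (α j) ≠ 0) {y : Fin n → K} (hy : y ∈ Tan I x) (h0 : dm α x y = 0) :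
    y = 0 := by
  have e1 : ∀ j, eval x (aeval α (β j)) = c * x j := by
    intro j
    rw [T1b_eval]
    exact hx j
  have e2 : ∀ j : Fin n, eval x (X j : MvPolynomial (Fin n) K) = 1 * x j := by
    intro j
    rw [eval_X, one_mul]
  obtain ⟨c', hc'⟩ := cross_deriv (α := fun i => aeval α (β i)) (β := fun j => X j) h hy hx0
    (a := c) (b := 1) e1 e2
  have h1 : dm (fun i => aeval α (β i)) x y = 0 := by
    rw [dm_comp, h0, map_zero]
  have h2 : ∀ j, dm (fun j => (X j : MvPolynomial (Fin n) K)) x y j = y j := by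
    intro j
    rw [dm_apply, Finset.sum_eq_single j]
    · rw [pderiv_X_self, map_one, one_mul]
    · intro i _ hi
      rw [pderiv_X_of_ne hi.symm, map_zero, zero_mul]
    · intro hj
      exact absurd (Finset.mem_univ j) hj
  have h3 : y = (-(c' / c)) • x := by
    funext j
    have h4 := hc' j
    rw [h1, Pi.zero_apply, h2, mul_zero, zero_sub] at h4
    rw [Pi.smul_apply, smul_eq_mul, neg_mul, div_mul_eq_mul_div, eq_neg_iff_add_eq_zero,
      add_div_eq_mul_add_div _ _ hc, div_eq_zero_iff]
    left
    linear_combination -h4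
  obtain ⟨j, hj⟩ := hαx
  have h5 : (-(c' / c)) * ((δ : K) * eval x (α j)) = 0 := by
    have h6 : dm α x y j = 0 := by
      rw [h0, Pi.zero_apply]
    rw [h3, map_smul, Pi.smul_apply, dm_self hα, smul_eq_mul] at h6
    exact h6
  have h7 : -(c' / c) = 0 := by
    rcases mul_eq_zero.1 h5 with h8 | h8
    · exact h8
    · rcases mul_eq_zero.1 h8 with h9 | h9
      · exact absurd h9 (Nat.cast_ne_zero.2 hδ.ne')
      · exact absurd h9 hj
  rw [h3, h7, zero_smul]

/-- Representatives of the same map: the images of `r + 1` tangent vectors have the same minors up to a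
factor. -/
theorem PL {I : Ideal (MvPolynomial (Fin n) K)} {δ : ℕ}
    {α β : Fin n' → MvPolynomial (Fin n) K} (hα : ∀ j, (α j).IsHomogeneous δ)
    (hβ : ∀ j, (β j).IsHomogeneous δ) (h : ∀ i j, α i * β j - α j * β i ∈ I) {x : Fin n → K}
    {r : ℕ} (y : Fin (r + 1) → Fin n → K) (hy : ∀ s, y s ∈ Tan I x) (hy0 : y 0 = x)
    {p : Fin n' → K} (hp : p ≠ 0) {a b : K} (ha : ∀ j, eval x (α j) = a * p j)
    (hb : ∀ j, eval x (β j) = b * p j) (e : Fin (r + 1) → Fin n') :
    (Matrix.of fun s t => dm α x (y s) (e t)).det * b ^ (r + 1) =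
      (Matrix.of fun s t => dm β x (y s) (e t)).det * a ^ (r + 1) := by
  have hU : (b • (Matrix.of fun s t => dm α x (y s) (e t))).det =
      b ^ (r + 1) * (Matrix.of fun s t => dm α x (y s) (e t)).det := by
    rw [Matrix.det_smul, Fintype.card_fin]
  have hW : (a • (Matrix.of fun s t => dm β x (y s) (e t))).det =
      a ^ (r + 1) * (Matrix.of fun s t => dm β x (y s) (e t)).det := by
    rw [Matrix.det_smul, Fintype.card_fin]
  rw [mul_comm, ← hU, mul_comm, ← hW]
  have r1 : ∀ t, (b • (Matrix.of fun s t => dm α x (y s) (e t))) 0 t =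
      (δ : K) * a * b * p (e t) := by
    intro t
    rw [Matrix.smul_apply, Matrix.of_apply, hy0, dm_self hα, ha, smul_eq_mul]
    ring
  have r2 : ∀ t, (a • (Matrix.of fun s t => dm β x (y s) (e t))) 0 t =
      (δ : K) * a * b * p (e t) := by
    intro t
    rw [Matrix.smul_apply, Matrix.of_apply, hy0, dm_self hβ, hb, smul_eq_mul]
    ring
  rcases eq_or_ne ((δ : K) * a * b) 0 with h0 | h0
  · rw [Matrix.det_eq_zero_of_row_eq_zero 0 (fun t => by rw [r1, h0, zero_mul]),
      Matrix.det_eq_zero_of_row_eq_zero 0 (fun t => by rw [r2, h0, zero_mul])]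
  · choose c hc using fun s => cross_deriv h (hy s) hp ha hb
    refine Matrix.det_eq_of_forall_row_eq_smul_add_const
      (fun s => if s = 0 then 0 else c s / ((δ : K) * a * b)) 0 (if_pos rfl) ?_
    intro s t
    rcases eq_or_ne s 0 with hs | hs
    · rw [hs, if_pos rfl, zero_mul, add_zero, r1, r2]
    · rw [if_neg hs, r2, Matrix.smul_apply, Matrix.smul_apply, Matrix.of_apply, Matrix.of_apply,
        smul_eq_mul, smul_eq_mul, ← mul_assoc, div_mul_cancel₀ _ h0]
      linear_combination hc s (e t)

end Pool.Agent.Lib.MP_17a322_nt.BA
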