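import Pool.Agent.Lib.MP_17a322_nt.BA.T1b
import Pool.Agent.Lib.MP_17a322_nt.VA.A4c

/-!
Vojta's conjecture for the projective varieties birational to an abelian variety: translations.
-/

universe u

namespace Pool.Agent.Lib.MP_17a322_nt.BA

open MvPolynomial
open Pool.Agent.Lib.MP_17a322_nt.VA

section

variable {K : Type u} [Field K] {N : ℕ} (A : AV K N)

/-- The translation by the point with the coordinates `q`: the components of the map `P ↦ P + Q`
multiplied by the coordinate `b` of `P - Q`. -/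
noncomputable def tr (b : Fin (N + 1)) (q : Fin (N + 1) → K) (a : Fin (N + 1)) :
    MvPolynomial (Fin (N + 1)) K :=
  aeval (Sum.elim X fun i => C (q i)) (A.S a b)

/-- The coordinates of the generic point of the cone over `A`. -/
noncomputable def gx (i : Fin (N + 1)) : MvPolynomial (Fin (N + 1)) K ⧸ A.I :=
  Ideal.Quotient.mk A.I (X i)

theorem aeval_gx (F : MvPolynomial (Fin (N + 1)) K) :
    aeval (gx A) F = Ideal.Quotient.mk A.I F := by
  have h1 : (aeval (gx A) : MvPolynomial (Fin (N + 1)) K →ₐ[K] _) =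
      Ideal.Quotient.mkₐ K A.I := by
    refine algHom_ext fun i => ?_
    rw [aeval_X]
    rfl
  rw [h1]
  rfl

theorem gx_isPt : A.IsPt (gx A) := by
  intro F hF
  rw [aeval_gx, Ideal.Quotient.eq_zero_iff_mem]
  exact hF

theorem cst_isPt (Q : A.Pts K) :
    A.IsPt fun i => algebraMap K (MvPolynomial (Fin (N + 1)) K ⧸ A.I) (A.x Q i) := by
  have h1 := (A.x_isPt Q).map (Algebra.ofId K (MvPolynomial (Fin (N + 1)) K ⧸ A.I))
  exact h1

/-- The class of `tr`. -/
theorem aeval_gx_tr (Q : A.Pts K) (b a : Fin (N + 1)) :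
    aeval (gx A) (tr A b (A.x Q) a) =
      A.s2 (gx A) (fun i => algebraMap K (MvPolynomial (Fin (N + 1)) K ⧸ A.I) (A.x Q i)) a b := by
  unfold tr AV.s2
  rw [← AlgHom.comp_apply, MvPolynomial.comp_aeval]
  congr 2
  funext i
  rcases i with i | i
  · simp only [Sum.elim_inl, aeval_X]
  · simp only [Sum.elim_inr, aeval_C]

theorem tr_hom (b : Fin (N + 1)) (q : Fin (N + 1) → K) (a : Fin (N + 1)) :
    (tr A b q a).IsHomogeneous 2 := by
  classical
  unfold tr
  rw [aeval_def, eval₂_eq]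
  refine IsHomogeneous.sum _ _ _ fun m hm => ?_
  have h1 := (A.bihomog a b m hm).1
  have h2 : (∏ i ∈ m.support, (Sum.elim (X : Fin (N + 1) → MvPolynomial (Fin (N + 1)) K)
      (fun i => C (q i)) i) ^ m i) =
      (∏ i, X i ^ m (Sum.inl i)) * C (∏ i, q i ^ m (Sum.inr i)) := by
    rw [Finset.prod_subset (Finset.subset_univ m.support) (fun i _ hi => by
      rw [Finsupp.notMem_support_iff.1 hi, pow_zero]), Fintype.prod_sum_type]
    simp only [Sum.elim_inl, Sum.elim_inr, map_prod, map_pow]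
  rw [h2, algebraMap_eq]
  have h3 : (∏ i, (X i : MvPolynomial (Fin (N + 1)) K) ^ m (Sum.inl i)).IsHomogeneous
      (∑ i, m (Sum.inl i)) :=
    IsHomogeneous.prod _ _ _ fun i _ => isHomogeneous_X_pow i _
  rw [h1] at h3
  have h4 := ((isHomogeneous_C (Fin (N + 1)) (coeff m (A.S a b))).mul h3).mul
    (isHomogeneous_C (Fin (N + 1)) (∏ i, q i ^ m (Sum.inr i)))
  rw [zero_add, add_zero, mul_assoc] at h4
  exact h4

theorem tr_mem (Q : A.Pts K) (b : Fin (N + 1)) {F : MvPolynomial (Fin (N + 1)) K}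
    (hF : F ∈ A.I) : aeval (tr A b (A.x Q)) F ∈ A.I := by
  rw [← Ideal.Quotient.eq_zero_iff_mem, ← aeval_gx, ← AlgHom.comp_apply, MvPolynomial.comp_aeval]
  have h1 := AV.col_isPt (gx_isPt A) (cst_isPt A Q) b F hF
  have h2 : (fun a => aeval (gx A) (tr A b (A.x Q) a)) = fun a =>
      A.s2 (gx A) (fun i => algebraMap K (MvPolynomial (Fin (N + 1)) K ⧸ A.I) (A.x Q i)) a b :=
    funext fun a => aeval_gx_tr A Q b a
  rw [h2]
  exact h1

theorem aeval_scale {R : Type u} [CommRing R] [Algebra K R] {n δ : ℕ}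
    {F : MvPolynomial (Fin n) K} (hF : F.IsHomogeneous δ) (c : R) (y : Fin n → R) :
    aeval (fun i => c * y i) F = c ^ δ * aeval y F :=
  aeval_mul_homog hF c y

/-- The cross relations for proportional vectors. -/
theorem cross_of_prop {R : Type u} [CommRing R] [IsDomain R] [Algebra K R] {n n' δ : ℕ}
    {α β : Fin n' → MvPolynomial (Fin n) K} (hα : ∀ j, (α j).IsHomogeneous δ)
    (hβ : ∀ j, (β j).IsHomogeneous δ) {z z' : Fin n → R} (hz : ∀ a b, z a * z' b = z b * z' a)
    (h : ∀ i j, aeval z (α i) * aeval z (β j) = aeval z (α j) * aeval z (β i))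
    (h' : ∀ i j, aeval z' (α i) * aeval z' (β j) = aeval z' (α j) * aeval z' (β i))
    (i j : Fin n') : aeval z (α i) * aeval z' (β j) = aeval z (α j) * aeval z' (β i) := by
  by_cases h0 : ∃ a, z a ≠ 0
  · obtain ⟨a, ha⟩ := h0
    have h1 : ∀ F : MvPolynomial (Fin n) K, F.IsHomogeneous δ →
        z a ^ δ * aeval z' F = z' a ^ δ * aeval z F := by
      intro F hF
      rw [← aeval_scale hF, ← aeval_scale hF]
      congr 2
      funext b
      rw [hz a b, mul_comm]
    refine mul_left_cancel₀ (pow_ne_zero δ ha) ?_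
    calc z a ^ δ * (aeval z (α i) * aeval z' (β j))
        = aeval z (α i) * (z a ^ δ * aeval z' (β j)) := by ring
      _ = aeval z (α i) * (z' a ^ δ * aeval z (β j)) := by rw [h1 _ (hβ j)]
      _ = z' a ^ δ * (aeval z (α i) * aeval z (β j)) := by ring
      _ = z' a ^ δ * (aeval z (α j) * aeval z (β i)) := by rw [h i j]
      _ = aeval z (α j) * (z' a ^ δ * aeval z (β i)) := by ring
      _ = aeval z (α j) * (z a ^ δ * aeval z' (β i)) := by rw [h1 _ (hβ i)]
      _ = z a ^ δ * (aeval z (α j) * aeval z' (β i)) := by ring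
  · push Not at h0
    by_cases h0' : ∃ a, z' a ≠ 0
    · obtain ⟨a, ha⟩ := h0'
      have h1 : ∀ F : MvPolynomial (Fin n) K, F.IsHomogeneous δ →
          z' a ^ δ * aeval z F = z a ^ δ * aeval z' F := by
        intro F hF
        rw [← aeval_scale hF, ← aeval_scale hF]
        congr 2
        funext b
        rw [hz a b, mul_comm]
      refine mul_left_cancel₀ (pow_ne_zero δ ha) ?_
      calc z' a ^ δ * (aeval z (α i) * aeval z' (β j))
          = (z' a ^ δ * aeval z (α i)) * aeval z' (β j) := by ring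
        _ = (z a ^ δ * aeval z' (α i)) * aeval z' (β j) := by rw [h1 _ (hα i)]
        _ = z a ^ δ * (aeval z' (α i) * aeval z' (β j)) := by ring
        _ = z a ^ δ * (aeval z' (α j) * aeval z' (β i)) := by rw [h' i j]
        _ = (z a ^ δ * aeval z' (α j)) * aeval z' (β i) := by ring
        _ = (z' a ^ δ * aeval z (α j)) * aeval z' (β i) := by rw [h1 _ (hα j)]
        _ = z' a ^ δ * (aeval z (α j) * aeval z' (β i)) := by ring
    · push Not at h0'
      have h1 : z' = z := by
        funext a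
        rw [h0 a, h0' a]
      rw [h1]
      exact h i j

theorem tr_cross {M δ : ℕ} (Q : A.Pts K) (b b' : Fin (N + 1))
    {α β : Fin (M + 1) → MvPolynomial (Fin (N + 1)) K} (hα : ∀ j, (α j).IsHomogeneous δ)
    (hβ : ∀ j, (β j).IsHomogeneous δ) (h : ∀ i j, α i * β j - α j * β i ∈ A.I)
    (i j : Fin (M + 1)) :
    aeval (tr A b (A.x Q)) (α i) * aeval (tr A b' (A.x Q)) (β j) -
      aeval (tr A b (A.x Q)) (α j) * aeval (tr A b' (A.x Q)) (β i) ∈ A.I := by
  have := AV.I_prime (A := A)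
  have h1 : ∀ (b : Fin (N + 1)) (F : MvPolynomial (Fin (N + 1)) K),
      aeval (gx A) (aeval (tr A b (A.x Q)) F) = aeval (fun a => A.s2 (gx A)
        (fun i => algebraMap K (MvPolynomial (Fin (N + 1)) K ⧸ A.I) (A.x Q i)) a b) F := by
    intro b F
    rw [← AlgHom.comp_apply, MvPolynomial.comp_aeval]
    congr 2
    funext a
    exact aeval_gx_tr A Q b a
  rw [← Ideal.Quotient.eq_zero_iff_mem, ← aeval_gx, map_sub, map_mul, map_mul, h1, h1, h1, h1,
    sub_eq_zero]
  have h2 : ∀ b : Fin (N + 1), ∀ i j,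
      aeval (fun a => A.s2 (gx A)
        (fun i => algebraMap K (MvPolynomial (Fin (N + 1)) K ⧸ A.I) (A.x Q i)) a b) (α i) *
      aeval (fun a => A.s2 (gx A)
        (fun i => algebraMap K (MvPolynomial (Fin (N + 1)) K ⧸ A.I) (A.x Q i)) a b) (β j) =
      aeval (fun a => A.s2 (gx A)
        (fun i => algebraMap K (MvPolynomial (Fin (N + 1)) K ⧸ A.I) (A.x Q i)) a b) (α j) *
      aeval (fun a => A.s2 (gx A)
        (fun i => algebraMap K (MvPolynomial (Fin (N + 1)) K ⧸ A.I) (A.x Q i)) a b) (β i) := by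
    intro b i j
    have h3 := AV.col_isPt (gx_isPt A) (cst_isPt A Q) b _ (h i j)
    rw [map_sub, map_mul, map_mul] at h3
    exact sub_eq_zero.1 h3
  exact cross_of_prop hα hβ (fun a c =>
    (AV.rank_one (gx_isPt A) (cst_isPt A Q) a b c b').trans (mul_comm _ _))
    (h2 b) (h2 b') i j

/-- The value of `S` at a pair of points. -/
theorem s2_eval (x q : Fin (N + 1) → K) (a b : Fin (N + 1)) :
    eval x (tr A b q a) = A.s2 x q a b := by
  unfold tr AV.s2
  have h1 : (aeval x : MvPolynomial (Fin (N + 1)) K →ₐ[K] K)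
      (aeval (Sum.elim X fun i => C (q i)) (A.S a b)) =
      aeval (fun i => aeval x (Sum.elim X (fun i => C (q i)) i)) (A.S a b) := by
    rw [← AlgHom.comp_apply, MvPolynomial.comp_aeval]
  rw [aeval_eq_eval] at h1
  rw [h1]
  congr 2
  funext i
  rcases i with i | i
  · simp only [Sum.elim_inl, eval_X]
  · simp only [Sum.elim_inr, eval_C]

theorem tr_val (P Q : A.Pts K) : ∃ c : K, c ≠ 0 ∧ ∀ b a,
    eval (A.x P) (tr A b (A.x Q) a) = c * A.x (P - Q) b * A.x (P + Q) a := by
  obtain ⟨c, hc, h⟩ := (AV.Rep.self P).s2 (AV.Rep.self Q)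
  refine ⟨c, hc, fun b a => ?_⟩
  rw [s2_eval, h]
  ring

theorem tr_inj [CharZero K] (P Q : A.Pts K) {b : Fin (N + 1)} (hb : A.x (P - Q) b ≠ 0)
    {y : Fin (N + 1) → K} (hy : y ∈ Tan A.I (A.x P))
    (h0 : dm (tr A b (A.x Q)) (A.x P) y = 0) : y = 0 := by
  obtain ⟨c, hc, h⟩ := tr_val A P Q
  obtain ⟨c', hc', h'⟩ := tr_val A (P + Q) Q
  obtain ⟨a, ha⟩ := A.exists_x_ne (P + Q + Q)
  obtain ⟨j, hj⟩ := A.exists_x_ne (P + Q)
  refine dm_inj (I := A.I) (δ := 2) two_pos (fun j => tr_hom A b (A.x Q) j)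
    (β := fun i => tr A i (A.x Q) a) (fun i j => ?_) (A.x_ne P)
    (c := (c * A.x (P - Q) b) ^ 2 * (c' * A.x (P + Q + Q) a))
    (mul_ne_zero (pow_ne_zero _ (mul_ne_zero hc hb)) (mul_ne_zero hc' ha)) (fun i => ?_) ?_ hy h0
  · rw [← Ideal.Quotient.eq_zero_iff_mem, ← aeval_gx, map_sub, map_mul, map_mul, aeval_X,
      aeval_X]
    have h1 := AV.add_sub_right (gx_isPt A) (cst_isPt A Q) a i b j
    have h2 : ∀ i, aeval (gx A) (aeval (tr A b (A.x Q)) (tr A i (A.x Q) a)) =
        A.s2 (fun i => A.s2 (gx A)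
          (fun i => algebraMap K (MvPolynomial (Fin (N + 1)) K ⧸ A.I) (A.x Q i)) i b)
          (fun i => algebraMap K (MvPolynomial (Fin (N + 1)) K ⧸ A.I) (A.x Q i)) a i := by
      intro i
      have h3 : aeval (gx A) (aeval (tr A b (A.x Q)) (tr A i (A.x Q) a)) =
          aeval (fun a => A.s2 (gx A)
            (fun i => algebraMap K (MvPolynomial (Fin (N + 1)) K ⧸ A.I) (A.x Q i)) a b)
            (tr A i (A.x Q) a) := by
        rw [← AlgHom.comp_apply, MvPolynomial.comp_aeval]
        congr 2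
        funext a
        exact aeval_gx_tr A Q b a
      rw [h3]
      unfold tr
      rw [← AlgHom.comp_apply, MvPolynomial.comp_aeval]
      unfold AV.s2
      congr 2
      funext k
      rcases k with k | k
      · simp only [Sum.elim_inl, aeval_X]
      · simp only [Sum.elim_inr, aeval_C]
    rw [h2, h2]
    linear_combination h1
  · rw [funext (h b), T_eval_scale (tr_hom A i (A.x Q) a), h', add_sub_cancel_right]
    ring
  · refine ⟨j, ?_⟩
    rw [h]
    exact mul_ne_zero (mul_ne_zero hc hb) hj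

/-- All tangent spaces of `A` have the same dimension. -/
theorem tan_le [CharZero K] (P Q : A.Pts K) :
    Module.finrank K (Tan A.I (A.x P)) ≤ Module.finrank K (Tan A.I (A.x Q)) := by
  obtain ⟨R, hR⟩ : ∃ R, R = Q - P := ⟨_, rfl⟩
  obtain ⟨c, hc, h⟩ := tr_val A P R
  obtain ⟨b, hb⟩ := A.exists_x_ne (P - R)
  have h1 : ∀ y ∈ Tan A.I (A.x P), dm (tr A b (A.x R)) (A.x P) y ∈ Tan A.I (A.x Q) := by
    intro y hy
    have h2 := dm_mem (I := A.I) (J := A.I) (α := tr A b (A.x R)) (x := A.x P) (y := y)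
      (fun F hF => tr_mem A R b hF) hy
    have h3 : P + R = Q := by rw [hR, add_sub_cancel]
    rw [funext (h b), h3, Tan_scale A.homog (mul_ne_zero hc hb)] at h2
    exact h2
  refine LinearMap.finrank_le_finrank_of_injective
    (f := (dm (tr A b (A.x R)) (A.x P)).restrict h1) ?_
  rw [← LinearMap.ker_eq_bot, LinearMap.ker_eq_bot']
  intro y hy
  have h2 := congrArg Subtype.val hy
  rw [LinearMap.coe_restrict_apply] at h2
  exact Subtype.ext (tr_inj A P R hb y.2 h2)

end

end Pool.Agent.Lib.MP_17a322_nt.BA
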