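import Pool.Agent.Lib.MP_17a322_nt.BA.T1b
import Pool.Agent.Lib.MP_17a322_nt.BA.T2
import Pool.Agent.Lib.MP_17a322_nt.BA.H1
import Pool.Agent.Lib.MP_17a322_nt.BA.H2
import Pool.Agent.Lib.MP_17a322_nt.EF.U2

/-!
Vojta's conjecture for the projective varieties birational to an abelian variety: the height of the
tangent spaces.
-/

universe u

namespace Pool.Agent.Lib.MP_17a322_nt.BA

open MvPolynomial Height
open Pool.Agent.Lib.MP_17a322_nt.VA

section

variable {K : Type u} [Field K]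

/-- A basis of a subspace which starts with a given vector. -/
theorem exists_basis_first {n : ℕ} (V : Submodule K (Fin n → K)) {x : Fin n → K} (hx : x ∈ V)
    (hx0 : x ≠ 0) : ∃ (r : ℕ) (y : Fin (r + 1) → Fin n → K), Module.finrank K V = r + 1 ∧
      LinearIndependent K y ∧ Submodule.span K (Set.range y) = V ∧ y 0 = x := by
  classical
  obtain ⟨x', hx'⟩ : ∃ x' : V, x' = ⟨x, hx⟩ := ⟨_, rfl⟩
  have h1 : LinearIndepOn K id ({x'} : Set V) := by
    refine LinearIndepOn.singleton ?_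
    intro h
    rw [hx'] at h
    exact hx0 (congrArg Subtype.val h)
  obtain ⟨ι, b, hb, i₀, hi₀⟩ : ∃ (ι : Type u) (b : Module.Basis ι K V), (∀ _ : Unit, True) ∧
      ∃ i₀, b i₀ = x' := by
    refine ⟨_, Module.Basis.extend h1, fun _ => trivial,
      ⟨x', h1.subset_extend _ (Set.mem_singleton _)⟩, ?_⟩
    rw [Module.Basis.extend_apply_self]
  let _ : Fintype ι := FiniteDimensional.fintypeBasisIndex b
  have hc : Module.finrank K V = Fintype.card ι := Module.finrank_eq_card_basis b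
  obtain ⟨r, hr⟩ : ∃ r, Module.finrank K V = r + 1 := by
    refine Nat.exists_eq_succ_of_ne_zero ?_
    rw [hc]
    have : Nonempty ι := ⟨i₀⟩
    exact Fintype.card_ne_zero
  have e : Fin (r + 1) ≃ ι := (Fintype.equivFinOfCardEq (by rw [← hc, hr])).symm
  obtain ⟨e', he'⟩ : ∃ e' : Fin (r + 1) ≃ ι, e' 0 = i₀ := ⟨e.trans (Equiv.swap (e 0) i₀), by
    rw [Equiv.trans_apply, Equiv.swap_apply_left]⟩
  refine ⟨r, fun s => (b (e' s) : Fin n → K), hr, ?_, ?_, ?_⟩
  · have h3 := b.linearIndependent.comp e' e'.injective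
    exact h3.map' V.subtype (Submodule.ker_subtype V)
  · have h3 : Set.range (fun s => (b (e' s) : Fin n → K)) = V.subtype '' Set.range b := by
      ext z
      constructor
      · rintro ⟨s, rfl⟩
        exact ⟨_, ⟨_, rfl⟩, rfl⟩
      · rintro ⟨_, ⟨i, rfl⟩, rfl⟩
        exact ⟨e'.symm i, by simp only [Equiv.apply_symm_apply]; rfl⟩
    rw [h3, Submodule.span_image, b.span_eq, Submodule.map_top, Submodule.range_subtype]
  · show (b (e' 0) : Fin n → K) = x
    rw [he', hi₀, hx']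

/-- A nonzero minor. -/
theorem exists_minor {r n : ℕ} (B : Fin r → Fin n → K) (hB : LinearIndependent K B) :
    ∃ e : Fin r ↪o Fin n, (Matrix.of fun a b => B a (e b)).det ≠ 0 := by
  classical
  obtain ⟨f, hf⟩ := EF.R0_minor B hB
  have hinj : Function.Injective f := by
    intro i j hij
    by_contra hne
    exact hf (Matrix.det_zero_of_column_eq hne fun a => by
      simp only [Matrix.of_apply, hij])
  obtain ⟨s, hs⟩ : ∃ s : Finset (Fin n), s = Finset.univ.image f := ⟨_, rfl⟩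
  have hc : s.card = r := by
    rw [hs, Finset.card_image_of_injective _ hinj, Finset.card_univ, Fintype.card_fin]
  have hmem : ∀ i, f i ∈ s := fun i => by
    rw [hs]
    exact Finset.mem_image_of_mem _ (Finset.mem_univ i)
  have hσ : Function.Injective fun i => (s.orderIsoOfFin hc).symm ⟨f i, hmem i⟩ := by
    intro i j hij
    have h1 := (s.orderIsoOfFin hc).symm.injective hij
    exact hinj (congrArg Subtype.val h1)
  obtain ⟨σ, hσd⟩ : ∃ σ : Equiv.Perm (Fin r),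
      ∀ i, σ i = (s.orderIsoOfFin hc).symm ⟨f i, hmem i⟩ :=
    ⟨Equiv.ofBijective _ (Finite.injective_iff_bijective.1 hσ), fun i => rfl⟩
  refine ⟨s.orderEmbOfFin hc, fun h0 => hf ?_⟩
  have h1 : (Matrix.of fun i j : Fin r => B i (f j)) =
      (Matrix.of fun a b => B a (s.orderEmbOfFin hc b)).submatrix id σ := by
    ext i j
    rw [Matrix.submatrix_apply, Matrix.of_apply, Matrix.of_apply, hσd,
      ← Finset.coe_orderIsoOfFin_apply, OrderIso.apply_symm_apply, id]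
  rw [h1, Matrix.det_permute', h0, mul_zero]

/-- Evaluation at a multiple. -/
theorem eval_mul_homog {n δ : ℕ} {F : MvPolynomial (Fin n) K} (hF : F.IsHomogeneous δ) (c : K)
    (x : Fin n → K) : eval (fun i => c * x i) F = c ^ δ * eval x F := by
  have h1 := aeval_mul_homog (R := K) hF c x
  rw [aeval_eq_eval, aeval_eq_eval] at h1
  exact h1

/-- Evaluation of a composition. -/
theorem eval_aeval {n n' : ℕ} (α : Fin n' → MvPolynomial (Fin n) K)
    (F : MvPolynomial (Fin n') K) (x : Fin n → K) :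
    eval x (aeval α F) = eval (fun j => eval x (α j)) F := by
  have h1 : (aeval x : MvPolynomial (Fin n) K →ₐ[K] K) (aeval α F) =
      aeval (fun j => aeval x (α j)) F := by
    rw [← AlgHom.comp_apply, MvPolynomial.comp_aeval]
  rw [aeval_eq_eval] at h1
  simpa only [aeval_eq_eval] using h1

/-- An injective linear map on a subspace. -/
theorem finrank_le_of_inj {n n' : ℕ} (V : Submodule K (Fin n → K)) (W : Submodule K (Fin n' → K))
    (g : (Fin n → K) →ₗ[K] (Fin n' → K)) (h : ∀ y ∈ V, g y ∈ W)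
    (h0 : ∀ y ∈ V, g y = 0 → y = 0) : Module.finrank K V ≤ Module.finrank K W := by
  refine LinearMap.finrank_le_finrank_of_injective (f := g.restrict h) ?_
  rw [← LinearMap.ker_eq_bot, LinearMap.ker_eq_bot']
  intro y hy
  have h1 := congrArg Subtype.val hy
  rw [LinearMap.coe_restrict_apply] at h1
  exact Subtype.ext (h0 y.1 y.2 h1)

end

section

variable {K : Type u} [Field K] [NumberField K] {N M κ d b : ℕ} (A : AV K N)

/-- The height of the tangent space of `X` at `φ(Q)`. -/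
theorem T_main (J : Ideal (MvPolynomial (Fin (M + 1)) K))
    (hJh : ∀ F ∈ J, ∀ i, homogeneousComponent i F ∈ J) (hd : 0 < d) (hb : 0 < b)
    (φ : Fin κ → Fin (M + 1) → MvPolynomial (Fin (N + 1)) K)
    (hφ : ∀ k j, (φ k j).IsHomogeneous d) (hφJ : ∀ k, ∀ F ∈ J, aeval (φ k) F ∈ A.I)
    (hφφ : ∀ k l i j, φ k i * φ l j - φ k j * φ l i ∈ A.I)
    (ψ : Fin (N + 1) → MvPolynomial (Fin (M + 1)) K) (hψ : ∀ i, (ψ i).IsHomogeneous b)
    (hψA : ∀ F ∈ A.I, aeval ψ F ∈ J)
    (hψφ : ∀ k i j, aeval (φ k) (ψ i) * X j - aeval (φ k) (ψ j) * X i ∈ A.I)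
    (hφψ : ∀ k i j, aeval ψ (φ k i) * X j - aeval ψ (φ k j) * X i ∈ J) :
    ∃ C : ℝ, ∀ (Q : A.Pts K) (p : Fin (M + 1) → K), p ≠ 0 → (∀ F ∈ J, eval p F = 0) →
      (∃ s : K, s ≠ 0 ∧ ∀ i, eval p (ψ i) = s * A.x Q i) →
      (∃ k j, eval (A.x Q) (φ k j) ≠ 0) →
      hCan J p ≤ Module.finrank K (Tan A.I (A.x (0 : A.Pts K))) *
        (d * logHeight (A.x Q) -
          logHeight (fun z : Fin κ × Fin (M + 1) => eval (A.x Q) (φ z.1 z.2))) + C := by
  classical
  obtain ⟨x₀, hx₀⟩ : ∃ x₀, x₀ = A.x (0 : A.Pts K) := ⟨_, rfl⟩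
  have hI0 : ∀ (Q : A.Pts K), ∀ F ∈ A.I, eval (A.x Q) F = 0 := fun Q F hF => by
    have h1 := A.x_isPt Q F hF
    rw [aeval_eq_eval] at h1
    exact h1
  have hx₀0 : x₀ ≠ 0 := by rw [hx₀]; exact A.x_ne _
  have hx₀T : x₀ ∈ Tan A.I x₀ := by
    refine Tan_self A.homog fun F hF => ?_
    rw [hx₀]
    exact hI0 _ F hF
  obtain ⟨r, y, hr, hyi, hys, hy0⟩ := exists_basis_first (Tan A.I x₀) hx₀T hx₀0
  have hyT : ∀ s, y s ∈ Tan A.I x₀ := fun s => by
    rw [← hys]
    exact Submodule.subset_span ⟨s, rfl⟩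
  obtain ⟨W, hW, hWe⟩ := H_form A φ hφ x₀ y
  obtain ⟨C₁, hC₁⟩ := H_bound W hW
  obtain ⟨C₂, hC₂⟩ := H_neg A
  rw [← hx₀, hr]
  refine ⟨C₁ + (r + 1) * d * C₂, ?_⟩
  rintro Q p hp hpJ ⟨s, hs, hψp⟩ ⟨k₀, j₀, hk₀⟩
  obtain ⟨q, hq⟩ : ∃ q, q = A.x Q := ⟨_, rfl⟩
  have hq0 : q ≠ 0 := by rw [hq]; exact A.x_ne Q
  rw [← hq] at hψp hk₀ ⊢
  obtain ⟨v, hv⟩ : ∃ v, v = A.x (-Q) := ⟨_, rfl⟩
  have hv0 : v ≠ 0 := by rw [hv]; exact A.x_ne _
  -- the values of `φ`
  obtain ⟨j₁, hj₁⟩ := Function.ne_iff.1 hp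
  rw [Pi.zero_apply] at hj₁
  obtain ⟨m, hm⟩ : ∃ m : Fin κ → K, ∀ k j, eval q (φ k j) = m k * p j := by
    refine ⟨fun k => eval q (φ k j₁) / p j₁, fun k j => ?_⟩
    have h1 := hpJ _ (hφψ k j j₁)
    rw [map_sub, map_mul, map_mul, eval_X, eval_X, eval_aeval, eval_aeval, funext hψp,
      eval_mul_homog (hφ k j), eval_mul_homog (hφ k j₁)] at h1
    have h2 : s ^ d ≠ 0 := pow_ne_zero _ hs
    field_simp
    have h3 : s ^ d * (eval q (φ k j) * p j₁ - eval q (φ k j₁) * p j) = 0 := by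
      rw [← h1]
      ring
    have h4 := (mul_eq_zero.1 h3).resolve_left h2
    linear_combination h4
  have hm₀ : m k₀ ≠ 0 := by
    intro h
    rw [hm, h, zero_mul] at hk₀
    exact hk₀ rfl
  -- the translation
  obtain ⟨c, hc, hcv⟩ := tr_val A 0 Q
  rw [zero_sub, zero_add, ← hx₀, ← hq, ← hv] at hcv
  obtain ⟨b₀, hb₀⟩ := Function.ne_iff.1 hv0
  rw [Pi.zero_apply] at hb₀
  obtain ⟨α, hα⟩ : ∃ α : Fin κ × Fin (N + 1) → Fin (M + 1) → MvPolynomial (Fin (N + 1)) K,
      α = fun z j => aeval (tr A z.2 q) (φ z.1 j) := ⟨_, rfl⟩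
  obtain ⟨μ, hμ⟩ : ∃ μ : Fin κ × Fin (N + 1) → K, μ = fun z => (c * v z.2) ^ d * m z.1 :=
    ⟨_, rfl⟩
  have hαv : ∀ z j, eval x₀ (α z j) = μ z * p j := by
    intro z j
    have h1 : eval x₀ (α z j) = eval (fun a => eval x₀ (tr A z.2 q a)) (φ z.1 j) := by
      rw [hα]
      exact eval_aeval _ _ _
    rw [h1, funext (hcv z.2), eval_mul_homog (hφ z.1 j), hm, hμ]
    ring
  have hαh : ∀ z j, (α z j).IsHomogeneous (2 * d) := by
    intro z j
    rw [hα]
    exact (hφ z.1 j).aeval _ fun a => tr_hom A z.2 q a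
  have hαJ : ∀ z, ∀ F ∈ J, aeval (α z) F ∈ A.I := by
    intro z F hF
    have h1 : aeval (α z) F = aeval (tr A z.2 q) (aeval (φ z.1) F) := by
      rw [hα, ← AlgHom.comp_apply, MvPolynomial.comp_aeval]
    rw [h1, hq]
    exact tr_mem A Q z.2 (hφJ z.1 F hF)
  have hαα : ∀ z z' i j, α z i * α z' j - α z j * α z' i ∈ A.I := by
    intro z z' i j
    rw [hα, hq]
    exact tr_cross A Q z.2 z'.2 (hφ z.1) (hφ z'.1) (hφφ z.1 z'.1) i j
  obtain ⟨z₀, hz₀⟩ : ∃ z₀ : Fin κ × Fin (N + 1), z₀ = (k₀, b₀) := ⟨_, rfl⟩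
  have hμ₀ : μ z₀ ≠ 0 := by
    rw [hμ, hz₀]
    exact mul_ne_zero (pow_ne_zero _ (mul_ne_zero hc hb₀)) hm₀
  have hcb : c * v b₀ ≠ 0 := mul_ne_zero hc hb₀
  -- the differential of `α z₀` is injective
  have hinj : ∀ w ∈ Tan A.I x₀, dm (α z₀) x₀ w = 0 → w = 0 := by
    intro w hw h0
    have h1 : dm (α z₀) x₀ w = dm (φ k₀) (fun a => eval x₀ (tr A b₀ q a))
        (dm (tr A b₀ q) x₀ w) := by
      rw [← dm_comp, hα, hz₀]
    rw [h1, funext (hcv b₀)] at h0
    have h2 : dm (tr A b₀ q) x₀ w ∈ Tan A.I (fun a => c * v b₀ * q a) := by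
      have h3 := dm_mem (I := A.I) (J := A.I) (α := tr A b₀ q) (x := x₀) (y := w)
        (fun F hF => by rw [hq]; exact tr_mem A Q b₀ hF) hw
      rw [funext (hcv b₀)] at h3
      exact h3
    have h3 : dm (tr A b₀ q) x₀ w = 0 := by
      refine dm_inj (I := A.I) hd (hφ k₀) (hψφ k₀) (x := fun a => c * v b₀ * q a) ?_
        (c := (((c * v b₀) ^ d * m k₀) ^ b * s) / (c * v b₀)) ?_ ?_ ?_ h2 h0
      · intro h
        obtain ⟨a, ha⟩ := Function.ne_iff.1 hq0
        have h4 := congrFun h a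
        simp only [Pi.zero_apply, mul_eq_zero] at h4
        exact ha (by simpa [hc, hb₀] using h4)
      · exact div_ne_zero (mul_ne_zero (pow_ne_zero _ (mul_ne_zero (pow_ne_zero _ hcb) hm₀)) hs)
          hcb
      · intro i
        have h4 : (fun j => eval (fun a => c * v b₀ * q a) (φ k₀ j)) =
            fun j => (c * v b₀) ^ d * m k₀ * p j := by
          funext j
          rw [eval_mul_homog (hφ k₀ j), hm]
          ring
        rw [h4, eval_mul_homog (hψ i), hψp]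
        field_simp
      · refine ⟨j₀, ?_⟩
        rw [eval_mul_homog (hφ k₀ j₀)]
        exact mul_ne_zero (pow_ne_zero _ hcb) hk₀
    refine tr_inj A (0 : A.Pts K) Q (b := b₀) ?_ (y := w) ?_ ?_
    · rw [zero_sub, ← hv]
      exact hb₀
    · rw [← hx₀]
      exact hw
    · rw [← hx₀, ← hq]
      exact h3
  -- the dimension of the tangent space
  have hJs : Tan J (fun j => eval x₀ (α z₀ j)) = Tan J p := by
    rw [funext (hαv z₀)]
    exact Tan_scale hJh hμ₀ p
  have hmem : ∀ w ∈ Tan A.I x₀, dm (α z₀) x₀ w ∈ Tan J p := fun w hw => by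
    rw [← hJs]
    exact dm_mem (hαJ z₀) hw
  have hle1 : r + 1 ≤ Module.finrank K (Tan J p) := by
    rw [← hr]
    exact finrank_le_of_inj _ _ _ hmem hinj
  have hle2 : Module.finrank K (Tan J p) ≤ r + 1 := by
    have h1 : Module.finrank K (Tan J p) ≤ Module.finrank K (Tan A.I q) := by
      refine finrank_le_of_inj _ _ (dm ψ p) (fun w hw => ?_) fun w hw h0 => ?_
      · have h2 := dm_mem hψA hw
        rw [funext hψp, Tan_scale A.homog hs] at h2
        exact h2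
      · refine dm_inj (I := J) hb hψ (hφψ k₀) hp (c := s ^ d * m k₀)
          (mul_ne_zero (pow_ne_zero _ hs) hm₀) (fun i => ?_) ?_ hw h0
        · rw [funext hψp, eval_mul_homog (hφ k₀ i), hm]
          ring
        · obtain ⟨a, ha⟩ := Function.ne_iff.1 hq0
          refine ⟨a, ?_⟩
          rw [hψp]
          exact mul_ne_zero hs ha
    have h2 := tan_le A Q (0 : A.Pts K)
    rw [← hx₀, ← hq, hr] at h2
    exact h1.trans h2
  have hfr : Module.finrank K (Tan J p) = r + 1 := le_antisymm hle2 hle1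
  -- the basis of the tangent space
  have hui : LinearIndependent K fun t => dm (α z₀) x₀ (y t) := by
    have h1 : LinearIndependent K (fun t => (⟨y t, hyT t⟩ : Tan A.I x₀)) := by
      refine LinearIndependent.of_comp (Tan A.I x₀).subtype ?_
      exact hyi
    have h2 := h1.map' ((dm (α z₀) x₀).domRestrict (Tan A.I x₀)) (by
      rw [LinearMap.ker_eq_bot']
      intro w hw
      rw [LinearMap.domRestrict_apply] at hw
      exact Subtype.ext (hinj w.1 w.2 hw))
    exact h2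
  have hus : Submodule.span K (Set.range fun t => dm (α z₀) x₀ (y t)) = Tan J p := by
    refine Submodule.eq_of_le_of_finrank_eq ?_ ?_
    · rw [Submodule.span_le]
      rintro _ ⟨t, rfl⟩
      exact hmem _ (hyT t)
    · rw [finrank_span_eq_card hui, Fintype.card_fin, hfr]
  have hS := EF.U2_hSub (Tan J p) (fun t => dm (α z₀) x₀ (y t)) hui hus
  -- the minors
  obtain ⟨V, hV⟩ : ∃ V : Fin κ × Fin (N + 1) → (Fin (r + 1) ↪o Fin (M + 1)) → K,
      V = fun z e => (Matrix.of fun s t => dm (α z) x₀ (y s) (e t)).det := ⟨_, rfl⟩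
  have hPL : ∀ z e, V z e * μ z₀ ^ (r + 1) = V z₀ e * μ z ^ (r + 1) := by
    intro z e
    rw [hV]
    exact PL (I := A.I) (hαh z) (hαh z₀) (hαα z z₀) y hyT hy0 hp (hαv z) (hαv z₀) e
  have hVw : (fun z : (Fin κ × Fin (N + 1)) × (Fin (r + 1) ↪o Fin (M + 1)) => V z.1 z.2) =
      fun z => (fun z => μ z ^ (r + 1)) z.1 * ((μ z₀ ^ (r + 1))⁻¹ • V z₀) z.2 := by
    funext z
    have h1 := hPL z.1 z.2
    have h2 : μ z₀ ^ (r + 1) ≠ 0 := pow_ne_zero _ hμ₀
    rw [Pi.smul_apply, smul_eq_mul]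
    field_simp
    linear_combination h1
  have hV0 : V z₀ ≠ 0 := by
    intro h
    obtain ⟨e, he⟩ := exists_minor _ hui
    rw [hV] at h
    exact he (congrFun h e)
  have hμ0 : μ ≠ 0 := fun h => hμ₀ (congrFun h z₀)
  have hμr : (fun z => μ z ^ (r + 1)) ≠ 0 := by
    intro h
    exact pow_ne_zero _ hμ₀ (congrFun h z₀)
  have hVs : (μ z₀ ^ (r + 1))⁻¹ • V z₀ ≠ 0 :=
    smul_ne_zero (inv_ne_zero (pow_ne_zero _ hμ₀)) hV0
  have g1 : logHeight (fun z : (Fin κ × Fin (N + 1)) × (Fin (r + 1) ↪o Fin (M + 1)) =>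
      V z.1 z.2) = (r + 1) * logHeight μ + EF.hSub (Tan J p) := by
    rw [hVw, logHeight_fun_mul_eq hμr hVs, logHeight_smul_eq_logHeight _
      (inv_ne_zero (pow_ne_zero _ hμ₀)), hS]
    have h1 := logHeight_pow μ (r + 1)
    have h2 : μ ^ (r + 1) = fun z => μ z ^ (r + 1) := rfl
    rw [h2] at h1
    rw [h1, hV]
    push_cast
    rfl
  have g2 : logHeight μ = d * logHeight v + logHeight m := by
    have h1 : μ = c ^ d • ((fun z : Fin κ × Fin (N + 1) => m z.1 * (v ^ d) z.2)) := by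
      funext z
      rw [hμ, Pi.smul_apply, smul_eq_mul, Pi.pow_apply]
      ring
    have hm0 : m ≠ 0 := fun h => hm₀ (congrFun h k₀)
    have hvd : v ^ d ≠ 0 := pow_ne_zero _ hv0
    rw [h1, logHeight_smul_eq_logHeight _ (pow_ne_zero _ hc), logHeight_fun_mul_eq hm0 hvd,
      logHeight_pow]
    ring
  have g3 : logHeight (fun z : Fin κ × Fin (M + 1) => eval q (φ z.1 z.2)) =
      logHeight m + logHeight p := by
    have h1 : (fun z : Fin κ × Fin (M + 1) => eval q (φ z.1 z.2)) = fun z => m z.1 * p z.2 :=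
      funext fun z => hm z.1 z.2
    have hm0 : m ≠ 0 := fun h => hm₀ (congrFun h k₀)
    rw [h1, logHeight_fun_mul_eq hm0 hp]
  have g4 := hC₁ q hq0 (by
    obtain ⟨e, he⟩ := Function.ne_iff.1 hV0
    refine ⟨((k₀, b₀), e), ?_⟩
    rw [hWe]
    rw [hV, hz₀, hα] at he
    exact he)
  have g5 : (fun z => eval q (W z)) =
      fun z : (Fin κ × Fin (N + 1)) × (Fin (r + 1) ↪o Fin (M + 1)) => V z.1 z.2 := by
    funext z
    obtain ⟨⟨k, b'⟩, e⟩ := z
    rw [hWe, hV, hα]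
  rw [g5, g1, g2] at g4
  have g6 := hC₂ Q
  rw [← hv, ← hq, abs_le] at g6
  unfold hCan
  rw [hfr, g3]
  push_cast at g4 ⊢
  have g7 : 0 ≤ ((r : ℝ) + 1) * d := by positivity
  have g8 := mul_le_mul_of_nonneg_left g6.1 g7
  nlinarith

end

end Pool.Agent.Lib.MP_17a322_nt.BA
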