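import Pool.Agent.Lib.MP_17a322_nt.BA.Z1b
import Pool.Agent.Lib.MP_17a322_nt.BA.T3
import Pool.Agent.Lib.MP_17a322_nt.VDA.P4

/-!
Vojta's conjecture for the projective varieties birational to an abelian variety: the final theorem.
-/

universe u

namespace Pool.Agent.Lib.MP_17a322_nt.BA

open MvPolynomial Height
open Pool.Agent.Lib.MP_17a322_nt.VA

/-- The sum of the local heights. -/
theorem ZB_sum {K : Type u} [Field K] [NumberField K] {m n : ℕ} {x : Fin m → K} {y : Fin n → K}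
    {w : K} {d e : ℕ} {m' : ℕ} {g : Fin m' → K}
    (C : AbsoluteValue K ℝ → ℝ) (S : Finset (NumberField.FinitePlace K))
    (h : ∀ v : AbsoluteValue K ℝ,
      e * Real.log (⨆ i, v (x i)) - Real.log (⨆ l, v (g l)) ≤
        (d * Real.log (⨆ i, v (y i)) - Real.log (v w)) + e * C v) :
    (∑ v : NumberField.InfinitePlace K, (v.mult : ℝ) *
        (e * Real.log (⨆ i, v (x i)) - Real.log (⨆ l, v (g l)))) +
      (∑ v ∈ S, (e * Real.log (⨆ i, v (x i)) - Real.log (⨆ l, v (g l)))) ≤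
    ((∑ v : NumberField.InfinitePlace K, (v.mult : ℝ) *
        (d * Real.log (⨆ i, v (y i)) - Real.log (v w))) +
      (∑ v ∈ S, (d * Real.log (⨆ i, v (y i)) - Real.log (v w)))) +
      ((∑ v : NumberField.InfinitePlace K, (v.mult : ℝ) * (e * C v.val)) +
        ∑ v ∈ S, e * C v.val) := by
  have h1 : (∑ v : NumberField.InfinitePlace K, (v.mult : ℝ) *
        (e * Real.log (⨆ i, v (x i)) - Real.log (⨆ l, v (g l)))) ≤
      (∑ v : NumberField.InfinitePlace K, (v.mult : ℝ) *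
        (d * Real.log (⨆ i, v (y i)) - Real.log (v w))) +
      ∑ v : NumberField.InfinitePlace K, (v.mult : ℝ) * (e * C v.val) := by
    rw [← Finset.sum_add_distrib]
    refine Finset.sum_le_sum fun v _ => ?_
    rw [← mul_add]
    exact mul_le_mul_of_nonneg_left (h v.val) (Nat.cast_nonneg _)
  have h2 : (∑ v ∈ S, (e * Real.log (⨆ i, v (x i)) - Real.log (⨆ l, v (g l)))) ≤
      (∑ v ∈ S, (d * Real.log (⨆ i, v (y i)) - Real.log (v w))) + ∑ v ∈ S, e * C v.val := by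
    rw [← Finset.sum_add_distrib]
    exact Finset.sum_le_sum fun v _ => h v.val
  linarith

/-- Vojta's conjecture for the varieties birational to an abelian variety. -/
theorem BA_final {K : Type u} [Field K] [NumberField K] {N M : ℕ} (A : AV K N)
    (Γ : AddSubgroup (A.Pts K)) (hΓ : Γ.FG)
    (J : Ideal (MvPolynomial (Fin (M + 1)) K)) (hJ : J.IsPrime)
    (hJh : ∀ F ∈ J, ∀ i, homogeneousComponent i F ∈ J)
    {κ d b : ℕ} (hd : 0 < d) (hb : 0 < b)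
    (φ : Fin κ → Fin (M + 1) → MvPolynomial (Fin (N + 1)) K)
    (hφ : ∀ k j, (φ k j).IsHomogeneous d) (hφJ : ∀ k, ∀ F ∈ J, aeval (φ k) F ∈ A.I)
    (hφφ : ∀ k l i j, φ k i * φ l j - φ k j * φ l i ∈ A.I)
    (hφ2 : ∀ (F : Type u) [Field F] [Algebra K F] (P : A.Pts F),
      (∀ k j, aeval (A.x P) (φ k j) = 0) →
      ∃ (F' : Type u) (_ : Field F') (_ : Algebra K F') (Q : A.Pts F'),
        tdeg K (A.x P) + 2 ≤ tdeg K (A.x Q))
    (ψ : Fin (N + 1) → MvPolynomial (Fin (M + 1)) K) (hψ : ∀ i, (ψ i).IsHomogeneous b)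
    (hψA : ∀ F ∈ A.I, aeval ψ F ∈ J)
    (hψφ : ∀ k i j, aeval (φ k) (ψ i) * X j - aeval (φ k) (ψ j) * X i ∈ A.I)
    (hφψ : ∀ k i j, aeval ψ (φ k i) * X j - aeval ψ (φ k j) * X i ∈ J)
    (h0 : ∃ k i, aeval (φ k) (ψ i) ∉ A.I)
    {m e : ℕ} (f : Fin m → MvPolynomial (Fin (M + 1)) K) (hf : ∀ l, (f l).IsHomogeneous e)
    (hf0 : ∃ l, f l ∉ J)
    (S : Finset (NumberField.FinitePlace K)) (ε : ℝ) (hε : 0 < ε) :
    ∃ (G : MvPolynomial (Fin (M + 1)) K) (C : ℝ), G ∉ J ∧ (∃ D, G.IsHomogeneous D) ∧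
      ∀ p : Fin (M + 1) → K, p ≠ 0 → (∀ F ∈ J, eval p F = 0) → eval p G ≠ 0 →
        (∀ Q : A.Pts K, (∃ c : K, ∀ i, eval p (ψ i) = c * A.x Q i) → Q ∈ Γ) →
        (∃ l, eval p (f l) ≠ 0) ∧
        (∑ v : NumberField.InfinitePlace K, (v.mult : ℝ) *
            (e * Real.log (⨆ i, v (p i)) - Real.log (⨆ l, v (eval p (f l))))) +
          (∑ v ∈ S, (e * Real.log (⨆ i, v (p i)) - Real.log (⨆ l, v (eval p (f l))))) +
          hCan J p ≤ ε * logHeight p + C := by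
  have hA := Z_prime A
  obtain ⟨k₀, i₀, h0⟩ := h0
  obtain ⟨l₀, hl₀⟩ := hf0
  obtain ⟨j₀, hj₀⟩ := ZB_exists hb hA (hφ k₀) (hφJ k₀) hψ (hψφ k₀) h0
  -- the form `f l₀` on `A`
  have hF : (aeval (φ k₀) (f l₀)).IsHomogeneous (d * e) := (hf l₀).aeval _ fun j => hφ k₀ j
  have hFA : aeval (φ k₀) (f l₀) ∉ A.I := fun h1 =>
    hl₀ (ZB_back hJ (hφψ k₀) hj₀ (hf l₀) (hψA _ h1))
  obtain ⟨r, hr⟩ : ∃ r : ℕ, r = Module.finrank K (Tan A.I (A.x (0 : A.Pts K))) := ⟨_, rfl⟩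
  have hb' : (0 : ℝ) < b := Nat.cast_pos.2 hb
  have hr' : (0 : ℝ) < r + 1 := by positivity
  obtain ⟨δ, hδ⟩ : ∃ δ : ℝ, δ = ε / (2 * b) := ⟨_, rfl⟩
  have hδ0 : 0 < δ := by
    rw [hδ]
    positivity
  have hδ' : 2 * b * δ = ε := by
    rw [hδ]
    field_simp
  obtain ⟨e₀⟩ : Nonempty (Fin (κ * (M + 1)) ≃ Fin κ × Fin (M + 1)) := ⟨finProdFinEquiv.symm⟩
  obtain ⟨G₁, C₁, hG₁, ⟨D₁, hD₁⟩, h₁⟩ := VA.final A Γ hΓ d (κ * (M + 1))
    (fun k => φ (e₀ k).1 (e₀ k).2) (fun k => hφ _ _)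
    (fun F _ _ P hP => hφ2 F P fun k j => by
      have h1 := hP (e₀.symm (k, j))
      rwa [e₀.apply_symm_apply] at h1) (δ / (r + 1)) (div_pos hδ0 hr')
  obtain ⟨G₂, C₂, hG₂, ⟨D₂, hD₂⟩, h₂⟩ := PX.prox A Γ hΓ (d * e) _ hF hFA S δ hδ0
  obtain ⟨C₃, h₃⟩ := T_main A J hJh hd hb φ hφ hφJ hφφ ψ hψ hψA hψφ hφψ
  obtain ⟨C₄, h₄⟩ := H_bound ψ hψ
  choose C₅ h₅ using fun v : AbsoluteValue K ℝ => H_local (φ k₀) (hφ k₀) v
  have hback : ∀ (D : ℕ) (F : MvPolynomial (Fin (N + 1)) K), F.IsHomogeneous D → F ∉ A.I →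
      aeval ψ F ∉ J := fun D F h1 h2 h3 =>
    h2 (ZB_back hA (hψφ k₀) h0 h1 (hφJ k₀ _ h3))
  have hψ₀ : ψ i₀ ∉ J := fun h1 => h0 (hφJ k₀ _ h1)
  refine ⟨f l₀ * (ψ i₀ * (aeval ψ (φ k₀ j₀) * (aeval ψ G₁ * aeval ψ G₂))),
    r * C₁ + C₂ + C₃ + 2 * δ * C₄ +
      ((∑ v : NumberField.InfinitePlace K, (v.mult : ℝ) * (e * C₅ v.val)) +
        ∑ v ∈ S, e * C₅ v.val), ?_, ?_, ?_⟩
  · intro h1
    rcases hJ.mem_or_mem h1 with h2 | h1
    · exact hl₀ h2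
    rcases hJ.mem_or_mem h1 with h2 | h1
    · exact hψ₀ h2
    rcases hJ.mem_or_mem h1 with h2 | h1
    · exact hj₀ h2
    rcases hJ.mem_or_mem h1 with h2 | h2
    · exact hback _ _ hD₁ hG₁ h2
    · exact hback _ _ hD₂ hG₂ h2
  · exact ⟨_, (hf l₀).mul ((hψ i₀).mul (((hφ k₀ j₀).aeval _ hψ).mul
      ((hD₁.aeval _ hψ).mul (hD₂.aeval _ hψ))))⟩
  · intro p hp hpJ hpG hpΓ
    rw [map_mul, map_mul, map_mul, map_mul] at hpG
    have g1 := left_ne_zero_of_mul hpG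
    have g2 := left_ne_zero_of_mul (right_ne_zero_of_mul hpG)
    have g3 := left_ne_zero_of_mul (right_ne_zero_of_mul (right_ne_zero_of_mul hpG))
    have g4 := left_ne_zero_of_mul
      (right_ne_zero_of_mul (right_ne_zero_of_mul (right_ne_zero_of_mul hpG)))
    have g5 := right_ne_zero_of_mul
      (right_ne_zero_of_mul (right_ne_zero_of_mul (right_ne_zero_of_mul hpG)))
    have hy : (fun i => eval p (ψ i)) ≠ 0 := fun h1 => g2 (congrFun h1 i₀)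
    obtain ⟨Q, s, hs, hQ⟩ := A.exists_rep hy fun F hF => by
      rw [ZB_ev, ← ZB_comp_ev]
      exact hpJ _ (hψA F hF)
    have hQΓ : Q ∈ Γ := hpΓ Q ⟨s, hQ⟩
    obtain ⟨c, hc⟩ := ZB_point hφ hφψ hp hpJ hs hQ k₀
    have hval : ∀ (D : ℕ) (F : MvPolynomial (Fin (N + 1)) K), F.IsHomogeneous D →
        eval p (aeval ψ F) ≠ 0 → eval (A.x Q) F ≠ 0 := by
      intro D F h1 h2 h3
      rw [ZB_comp_ev, funext hQ, ZB_mul_ev h1, h3, mul_zero] at h2
      exact h2 rfl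
    have k1 := hval _ _ (hφ k₀ j₀) g3
    have k2 := hval _ _ hD₁ g4
    have k3 := hval _ _ hD₂ g5
    have hc0 : c ≠ 0 := by
      intro h1
      rw [hc j₀, h1, zero_mul] at k1
      exact k1 rfl
    refine ⟨⟨l₀, g1⟩, ?_⟩
    have m1 := h₁ Q hQΓ (by rwa [ZB_ev])
    have m2 := h₂ Q hQΓ (by rwa [ZB_ev])
    have m3 := h₃ Q p hp hpJ ⟨s, hs, hQ⟩ ⟨k₀, j₀, k1⟩
    have m4 := h₄ p hp ⟨i₀, g2⟩
    have hx0 : A.x Q ≠ 0 := (AV.Rep.self Q).ne_zero
    have m5 := ZB_sum (x := p) (y := A.x Q) (w := aeval (A.x Q) (aeval (φ k₀) (f l₀)))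
      (d := d * e) (e := e) (g := fun l => eval p (f l)) C₅ S fun v =>
        ZB_local v hp hc0 hc (hf l₀) g1 (h₅ v (A.x Q) hx0 ⟨j₀, k1⟩)
    have e1 : logHeight (fun k => aeval (A.x Q) (φ (e₀ k).1 (e₀ k).2)) =
        logHeight fun z : Fin κ × Fin (M + 1) => eval (A.x Q) (φ z.1 z.2) := by
      have h1 := logHeight_comp_equiv e₀ fun z : Fin κ × Fin (M + 1) =>
        aeval (A.x Q) (φ z.1 z.2)
      simp only [Function.comp_def, ZB_ev] at h1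
      simp only [ZB_ev]
      exact h1
    have e2 : logHeight (fun i => eval p (ψ i)) = logHeight (A.x Q) := by
      rw [← logHeight_smul_eq_logHeight (A.x Q) hs]
      congr 1
      funext i
      exact hQ i
    rw [e1] at m1
    rw [e2] at m4
    rw [← hr] at m3
    obtain ⟨H, hH⟩ : ∃ H : ℝ, H = logHeight (A.x Q) := ⟨_, rfl⟩
    have hH0 : 0 ≤ H := by
      rw [hH]
      exact logHeight_nonneg _
    rw [← hH] at m1 m2 m3 m4
    simp only [PX.tmA] at m2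
    have n1 : (r : ℝ) * (d * H -
          logHeight (fun z : Fin κ × Fin (M + 1) => eval (A.x Q) (φ z.1 z.2))) ≤
        δ * H + r * C₁ := by
      have h1 := mul_le_mul_of_nonneg_left m1 (Nat.cast_nonneg (α := ℝ) r)
      have h2 : (r : ℝ) * (δ / (r + 1) * H + C₁) ≤ δ * H + r * C₁ := by
        have h3 : (r : ℝ) * (δ / (r + 1)) ≤ δ := by
          rw [mul_div_assoc', div_le_iff₀ hr']
          nlinarith
        nlinarith [mul_le_mul_of_nonneg_right h3 hH0]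
      linarith
    have n2 : 2 * δ * H ≤ ε * logHeight p + 2 * δ * C₄ := by
      have h1 := mul_le_mul_of_nonneg_left m4 (by positivity : 0 ≤ 2 * δ)
      rw [← hδ']
      linarith
    linarith

end Pool.Agent.Lib.MP_17a322_nt.BA
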