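import Pool.Agent.Lib.MP_17a322_nt.BA.Defs
import Pool.Agent.Lib.MP_17a322_nt.VA.A6

/-!
Vojta's conjecture for the projective varieties birational to an abelian variety: compositions of forms
with birational maps.
-/

universe u

namespace Pool.Agent.Lib.MP_17a322_nt.BA

open MvPolynomial
open Pool.Agent.Lib.MP_17a322_nt.VA

variable {K : Type u} [Field K]

/-- A form at proportional vectors modulo an ideal. -/
theorem ZB_prop {R : Type*} [CommRing R] [Algebra K R] (P : Ideal R) {m D : ℕ}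
    {F : MvPolynomial (Fin m) K} (hF : F.IsHomogeneous D) {s t : R} {u w : Fin m → R}
    (h : ∀ i, s * u i - t * w i ∈ P) : s ^ D * aeval u F - t ^ D * aeval w F ∈ P := by
  rw [← aeval_mul_homog hF, ← aeval_mul_homog hF, ← Ideal.Quotient.eq]
  have h1 : ∀ z : Fin m → R, Ideal.Quotient.mk P (aeval z F) =
      aeval (fun i => Ideal.Quotient.mkₐ K P (z i)) F := by
    intro z
    rw [← MvPolynomial.comp_aeval_apply, Ideal.Quotient.mkₐ_eq_mk]
  rw [h1, h1]
  have h2 : (fun i => Ideal.Quotient.mkₐ K P (s * u i)) =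
      fun i => Ideal.Quotient.mkₐ K P (t * w i) := by
    funext i
    rw [Ideal.Quotient.mkₐ_eq_mk]
    exact Ideal.Quotient.eq.2 (h i)
  rw [h2]

/-- The composition of two homomorphisms of polynomial rings. -/
theorem ZB_comp {n m l : ℕ} (φ : Fin m → MvPolynomial (Fin n) K)
    (ψ : Fin l → MvPolynomial (Fin m) K) (F : MvPolynomial (Fin l) K) :
    aeval φ (aeval ψ F) = aeval (fun i => aeval φ (ψ i)) F := by
  rw [MvPolynomial.comp_aeval_apply]

theorem ZB_X {n : ℕ} (F : MvPolynomial (Fin n) K) :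
    aeval (X : Fin n → MvPolynomial (Fin n) K) F = F := by
  rw [MvPolynomial.aeval_X_left, AlgHom.id_apply]

/-- A composition of a form with a map and its inverse. -/
theorem ZB_back {n m D : ℕ} {P : Ideal (MvPolynomial (Fin n) K)} (hP : P.IsPrime)
    {φ : Fin m → MvPolynomial (Fin n) K} {ψ : Fin n → MvPolynomial (Fin m) K}
    (h : ∀ i j, aeval φ (ψ i) * X j - aeval φ (ψ j) * X i ∈ P) {i₀ : Fin n}
    (h0 : aeval φ (ψ i₀) ∉ P) {F : MvPolynomial (Fin n) K} (hF : F.IsHomogeneous D)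
    (h1 : aeval φ (aeval ψ F) ∈ P) : F ∈ P := by
  have h2 := ZB_prop P hF (s := X i₀) (t := aeval φ (ψ i₀))
    (u := fun i => aeval φ (ψ i)) (w := X) fun i => by
      have h3 := h i i₀
      rwa [mul_comm (aeval φ (ψ i))] at h3
  rw [← ZB_comp, ZB_X] at h2
  have h4 : aeval φ (ψ i₀) ^ D * F ∈ P := by
    have h5 := P.sub_mem (P.mul_mem_left (X i₀ ^ D) h1) h2
    rwa [sub_sub_cancel] at h5
  rcases hP.mem_or_mem h4 with h6 | h6
  · exact absurd (hP.mem_of_pow_mem _ h6) h0
  · exact h6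

/-- One of the forms which define the composition with the inverse is not in the ideal. -/
theorem ZB_exists {n m d b : ℕ} (hb : 0 < b) {P : Ideal (MvPolynomial (Fin n) K)}
    (hP : P.IsPrime) {J : Ideal (MvPolynomial (Fin m) K)}
    {φ : Fin m → MvPolynomial (Fin n) K} (hφ : ∀ j, (φ j).IsHomogeneous d)
    (hφJ : ∀ F ∈ J, aeval φ F ∈ P)
    {ψ : Fin n → MvPolynomial (Fin m) K} (hψ : ∀ i, (ψ i).IsHomogeneous b)
    (h : ∀ i j, aeval φ (ψ i) * X j - aeval φ (ψ j) * X i ∈ P) {i₀ : Fin n}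
    (h0 : aeval φ (ψ i₀) ∉ P) : ∃ j, aeval ψ (φ j) ∉ J := by
  by_contra hcon
  push Not at hcon
  have h1 : ∀ j, φ j ∈ P := fun j => ZB_back hP h h0 (hφ j) (hφJ _ (hcon j))
  refine h0 ?_
  have h2 := ZB_prop P (hψ i₀) (s := 1) (t := 0) (u := φ) (w := φ) fun i => by
    rw [one_mul, zero_mul, sub_zero]
    exact h1 i
  rwa [one_pow, one_mul, zero_pow hb.ne', zero_mul, sub_zero] at h2

end Pool.Agent.Lib.MP_17a322_nt.BA
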