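import Pool.Agent.Lib.MP_17a322_nt.BA.Z1a

/-!
Vojta's conjecture for the projective varieties birational to an abelian variety: local heights under
birational maps.
-/

universe u

namespace Pool.Agent.Lib.MP_17a322_nt.BA

open MvPolynomial
open Pool.Agent.Lib.MP_17a322_nt.VA

variable {K : Type u} [Field K]

theorem ZB_ev {n : ℕ} (x : Fin n → K) (F : MvPolynomial (Fin n) K) : aeval x F = eval x F := by
  rw [aeval_def, Algebra.algebraMap_self]
  rfl

/-- The value of a composition. -/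
theorem ZB_comp_ev {n m : ℕ} (x : Fin n → K) (φ : Fin m → MvPolynomial (Fin n) K)
    (F : MvPolynomial (Fin m) K) : eval x (aeval φ F) = eval (fun j => eval x (φ j)) F := by
  have h1 := MvPolynomial.comp_aeval_apply (f := φ) (aeval x) F
  simp only [ZB_ev] at h1
  exact h1

/-- The value of a form at a multiple of a vector. -/
theorem ZB_mul_ev {n D : ℕ} {F : MvPolynomial (Fin n) K} (hF : F.IsHomogeneous D) (c : K)
    (x : Fin n → K) : eval (fun i => c * x i) F = c ^ D * eval x F := by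
  have h1 := aeval_mul_homog hF c x
  rwa [ZB_ev, ZB_ev] at h1

theorem ZB_log_smul (v : AbsoluteValue K ℝ) {M : ℕ} {p : Fin (M + 1) → K} (hp : p ≠ 0) {m : K}
    (hm : m ≠ 0) : Real.log (⨆ j, v (m * p j)) = Real.log (v m) + Real.log (⨆ j, v (p j)) := by
  have h1 : (⨆ j, v (m * p j)) = v m * ⨆ j, v (p j) := by
    have h2 := vm_smul v m p
    unfold vm at h2
    exact h2
  have h3 : 0 < ⨆ j, v (p j) := by
    have h4 := vm_pos v hp
    unfold vm at h4
    exact h4
  rw [h1, Real.log_mul (v.ne_zero hm) h3.ne']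

/-- The local height with respect to a closed subscheme of the image is at most that with respect to
the pull back of a hypersurface through it. -/
theorem ZB_local (v : AbsoluteValue K ℝ) {N M m' d e : ℕ} {p : Fin (M + 1) → K} (hp : p ≠ 0)
    {q : Fin (N + 1) → K} {φ : Fin (M + 1) → MvPolynomial (Fin (N + 1)) K} {m : K} (hm : m ≠ 0)
    (hφ : ∀ j, eval q (φ j) = m * p j) {f : Fin m' → MvPolynomial (Fin (M + 1)) K} {l₀ : Fin m'}
    (hf : (f l₀).IsHomogeneous e) (hl : eval p (f l₀) ≠ 0) {C : ℝ}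
    (hC : Real.log (⨆ j, v (eval q (φ j))) ≤ d * Real.log (⨆ i, v (q i)) + C) :
    e * Real.log (⨆ i, v (p i)) - Real.log (⨆ l, v (eval p (f l))) ≤
      ((d * e : ℕ) * Real.log (⨆ i, v (q i)) - Real.log (v (aeval q (aeval φ (f l₀))))) +
        e * C := by
  have h1 : Real.log (v (eval p (f l₀))) ≤ Real.log (⨆ l, v (eval p (f l))) :=
    Real.log_le_log (v.pos hl) (le_ciSup (Set.finite_range fun l => v (eval p (f l))).bddAbove l₀)
  have h2 : Real.log (⨆ j, v (eval q (φ j))) = Real.log (v m) + Real.log (⨆ j, v (p j)) := by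
    rw [← ZB_log_smul v hp hm]
    simp only [hφ]
  have h3 : aeval q (aeval φ (f l₀)) = m ^ e * eval p (f l₀) := by
    rw [ZB_ev, ZB_comp_ev, funext hφ, ZB_mul_ev hf]
  have h6 : Real.log (v (aeval q (aeval φ (f l₀)))) =
      e * Real.log (v m) + Real.log (v (eval p (f l₀))) := by
    rw [h3, map_mul, map_pow, Real.log_mul (pow_ne_zero _ (v.ne_zero hm)) (v.ne_zero hl),
      Real.log_pow]
  have h7 : (e : ℝ) * (Real.log (v m) + Real.log (⨆ j, v (p j))) ≤
      e * (d * Real.log (⨆ i, v (q i)) + C) := by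
    rw [← h2]
    exact mul_le_mul_of_nonneg_left hC (Nat.cast_nonneg e)
  have h8 : ((d * e : ℕ) : ℝ) * Real.log (⨆ i, v (q i)) =
      e * (d * Real.log (⨆ i, v (q i))) := by
    rw [Nat.cast_mul]
    ring
  rw [h6, h8]
  linarith

/-- The image of a point under the inverse. -/
theorem ZB_point {N M κ d : ℕ} {J : Ideal (MvPolynomial (Fin (M + 1)) K)}
    {φ : Fin κ → Fin (M + 1) → MvPolynomial (Fin (N + 1)) K}
    (hφ : ∀ k j, (φ k j).IsHomogeneous d) {ψ : Fin (N + 1) → MvPolynomial (Fin (M + 1)) K}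
    (hφψ : ∀ k i j, aeval ψ (φ k i) * X j - aeval ψ (φ k j) * X i ∈ J)
    {p : Fin (M + 1) → K} (hp : p ≠ 0) (hpJ : ∀ F ∈ J, eval p F = 0) {q : Fin (N + 1) → K} {s : K}
    (hs : s ≠ 0) (hq : ∀ i, eval p (ψ i) = s * q i) (k : Fin κ) :
    ∃ m : K, ∀ j, eval q (φ k j) = m * p j := by
  obtain ⟨j₁, hj₁⟩ := Function.ne_iff.1 hp
  rw [Pi.zero_apply] at hj₁
  have h1 : ∀ j, eval p (aeval ψ (φ k j)) = s ^ d * eval q (φ k j) := by
    intro j
    rw [ZB_comp_ev, funext hq, ZB_mul_ev (hφ k j)]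
  refine ⟨eval q (φ k j₁) / p j₁, fun j => ?_⟩
  have h3 := hpJ _ (hφψ k j j₁)
  rw [map_sub, map_mul, map_mul, eval_X, eval_X, h1, h1, mul_assoc, mul_assoc, ← mul_sub] at h3
  have h4 := (mul_eq_zero.1 h3).resolve_left (pow_ne_zero _ hs)
  rw [div_mul_eq_mul_div, eq_div_iff hj₁]
  exact sub_eq_zero.1 h4

end Pool.Agent.Lib.MP_17a322_nt.BA
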